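import Pool.Statements.S01009
import Pool.Agent.Lib.MP_291637_al.MainVF
import Pool.Agent.Lib.MP_291637_al_h3.VF

set_option autoImplicit false
open Pool Pool.MP_291637_al

namespace Pool.Agent.S01009

/-- There is a countably infinite group X such that every primitive permutation group with a regular subgroup isomorphic to X is doubly transitive. -/
theorem result :
    ∃ (X : Type) (_ : Group X), Countable X ∧ Infinite X ∧
      ∀ (Ω : Type) (G : Subgroup (Equiv.Perm Ω)),
        MulAction.IsPreprimitive G Ω →
        (∃ H : Subgroup (Equiv.Perm Ω), H ≤ G ∧ Nonempty (H ≃* X) ∧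
          ∀ ω ω' : Ω, ∃! h : H, h • ω = ω') →
        MulAction.IsMultiplyPretransitive G Ω 2 :=
  Pool.Agent.BG.main_of_vf (fun _ _ hf => Pool.Agent.BG.Cert.vf hf)

end Pool.Agent.S01009
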