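import Pool.Statements.S02070
import Pool.Agent.Lib.MP_7ed69f_al.Reps

set_option autoImplicit false
open Pool Pool.MP_7ed69f_al

namespace Pool.Agent.S02070

open Pool.Agent.Lib.MP_7ed69f_al

section Padic

variable (p : ℕ) [hp : Fact p.Prime]

/-- The truncated ring `ℤ_p/m²`. -/
abbrev Atr : Type := ℤ_[p] ⧸ IsLocalRing.maximalIdeal ℤ_[p] ^ 2

/-- The reduction map. -/
noncomputable def redA : Atr p →+* ZMod p :=
  Ideal.Quotient.lift _ (PadicInt.toZMod (p := p)) (by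
    intro a ha
    have h1 : a ∈ IsLocalRing.maximalIdeal ℤ_[p] := Ideal.pow_le_self two_ne_zero ha
    rwa [← PadicInt.ker_toZMod, RingHom.mem_ker] at h1)

theorem redA_mk (a : ℤ_[p]) : redA p (Ideal.Quotient.mk _ a) = PadicInt.toZMod a := rfl

theorem redA_eq_zero (x : Atr p) (hx : redA p x = 0) :
    ∃ a ∈ IsLocalRing.maximalIdeal ℤ_[p], x = Ideal.Quotient.mk _ a := by
  obtain ⟨a, rfl⟩ := Ideal.Quotient.mk_surjective x
  refine ⟨a, ?_, rfl⟩
  rw [redA_mk] at hx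
  rw [← PadicInt.ker_toZMod, RingHom.mem_ker, hx]

theorem redA_surjective : Function.Surjective (redA p) := by
  intro z
  obtain ⟨a, ha⟩ := ZMod.ringHom_surjective (PadicInt.toZMod (p := p)) z
  exact ⟨Ideal.Quotient.mk _ a, ha⟩

theorem redA_sqZero : SqZero (redA p) := by
  intro x y hx hy
  obtain ⟨a, ha, rfl⟩ := redA_eq_zero p x hx
  obtain ⟨b, hb, rfl⟩ := redA_eq_zero p y hy
  rw [← map_mul, Ideal.Quotient.eq_zero_iff_mem, pow_two]
  exact Ideal.mul_mem_mul ha hb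

theorem redA_p : redA p (Ideal.Quotient.mk _ (p : ℤ_[p])) = 0 := by
  rw [redA_mk]; simp

theorem mk_p_ne_zero : (Ideal.Quotient.mk (IsLocalRing.maximalIdeal ℤ_[p] ^ 2) (p : ℤ_[p])) ≠ 0 := by
  intro h
  rw [Ideal.Quotient.eq_zero_iff_mem, PadicInt.maximalIdeal_eq_span_p,
    Ideal.span_singleton_pow, Ideal.mem_span_singleton] at h
  have hp0 : (p : ℤ_[p]) ≠ 0 := by exact_mod_cast hp.out.ne_zero
  have h1 : (p : ℤ_[p]) ∣ 1 := by
    obtain ⟨c, hc⟩ := h
    refine ⟨c, ?_⟩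
    apply mul_left_cancel₀ hp0
    rw [mul_one]
    conv_lhs => rw [hc]
    ring
  exact PadicInt.p_nonunit (isUnit_of_dvd_one h1)

theorem redA_gen (x : Atr p) (hx : redA p x = 0) :
    ∃ a : Atr p, x = Ideal.Quotient.mk _ (p : ℤ_[p]) * a := by
  obtain ⟨a, ha, rfl⟩ := redA_eq_zero p x hx
  rw [PadicInt.maximalIdeal_eq_span_p, Ideal.mem_span_singleton] at ha
  obtain ⟨c, rfl⟩ := ha
  exact ⟨Ideal.Quotient.mk _ c, by rw [map_mul]⟩

instance finiteResidue : Finite (IsLocalRing.ResidueField ℤ_[p]) :=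
  Finite.of_equiv _ (PadicInt.residueField (p := p)).toEquiv.symm

theorem card_residue : Nat.card (IsLocalRing.ResidueField ℤ_[p]) = p := by
  rw [Nat.card_congr (PadicInt.residueField (p := p)).toEquiv, Nat.card_zmod]

instance finiteAtr : Finite (Atr p) := by
  have h1 : (IsLocalRing.maximalIdeal ℤ_[p]).FG := by
    rw [PadicInt.maximalIdeal_eq_span_p]
    exact ⟨{(p : ℤ_[p])}, by simp⟩
  have h2 : Finite (ℤ_[p] ⧸ IsLocalRing.maximalIdeal ℤ_[p]) := finiteResidue p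
  exact Ideal.finite_quotient_pow h1 2

end Padic

/-- The polynomial `X³(X+1)(X²+X+1)`. -/
noncomputable def fpoly : Polynomial ℤ :=
  Polynomial.X ^ 3 * (Polynomial.X + 1) * (Polynomial.X ^ 2 + Polynomial.X + 1)

theorem result :
    ¬ (∀ N r : ℕ, 2 ≤ N → 2 ≤ r →
    ∃ P : Finset (Polynomial ℤ), (∀ d ∈ P, d.natDegree ≤ N.choose 2 * r) ∧
    ∀ (R : Type) [CommRing R] [IsDomain R] [IsDiscreteValuationRing R]
      [Finite (IsLocalRing.ResidueField R)]
      [IsAdicComplete (IsLocalRing.maximalIdeal R) R],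
    {z : ℤ | ∃ (V : Type) (_ : AddCommGroup V) (_ : Module ℂ V)
        (ρ : Representation ℂ
          (Matrix.GeneralLinearGroup (Fin N) (R ⧸ IsLocalRing.maximalIdeal R ^ r)) V),
        FiniteDimensional ℂ V ∧ Nontrivial V ∧
        (∀ W : Submodule ℂ V, (∀ g v, v ∈ W → ρ g v ∈ W) → W = ⊥ ∨ W = ⊤) ∧
        (∃ g : Matrix.GeneralLinearGroup (Fin N) (R ⧸ IsLocalRing.maximalIdeal R ^ r),
          (∀ i j, ∃ a ∈ IsLocalRing.maximalIdeal R ^ (r - 1),
            g.val i j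
              - (1 : Matrix (Fin N) (Fin N) (R ⧸ IsLocalRing.maximalIdeal R ^ r)) i j
              = Ideal.Quotient.mk (IsLocalRing.maximalIdeal R ^ r) a) ∧ ρ g ≠ 1) ∧
        (Module.finrank ℂ V : ℤ) = z}
    = (fun d : Polynomial ℤ => d.eval (Nat.card (IsLocalRing.ResidueField R) : ℤ)) ''
        (P : Set (Polynomial ℤ))) := by
  intro H
  obtain ⟨P, -, hP⟩ := H 3 2 (by norm_num) le_rfl
  -- large primes force `fpoly ∈ P`
  have hbig : ∀ p : ℕ, p.Prime → 2 < p → ∃ d ∈ P, d.eval (p : ℤ) = fpoly.eval (p : ℤ) := by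
    intro p hp hp2
    have : Fact p.Prime := ⟨hp⟩
    have h2 : (2 : ZMod p) ≠ 0 := by
      intro h
      have h3 : ((2 : ℕ) : ZMod p) = 0 := by exact_mod_cast h
      rw [ZMod.natCast_eq_zero_iff] at h3
      exact absurd (Nat.le_of_dvd (by norm_num) h3) (by omega)
    obtain ⟨V, i1, i2, ρ, hfd, hnt, hirr, ⟨g, hgk, hg1⟩, hfr⟩ :=
      exists_big (redA_surjective p) (redA_sqZero p) h2 _ (redA_p p) (mk_p_ne_zero p)
    have hmem : ((Module.finrank ℂ V : ℕ) : ℤ) ∈ (fun d : Polynomial ℤ => d.eval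
        (Nat.card (IsLocalRing.ResidueField ℤ_[p]) : ℤ)) '' (P : Set (Polynomial ℤ)) := by
      rw [← hP ℤ_[p]]
      refine ⟨V, i1, i2, ρ, hfd, hnt, hirr, ⟨g, ?_, hg1⟩, rfl⟩
      intro i j
      rw [mem_ker_iff] at hgk
      obtain ⟨a, ha, hae⟩ := redA_eq_zero p _ (hgk i j)
      exact ⟨a, by simpa using ha, hae⟩
    obtain ⟨d, hd, hde⟩ := hmem
    refine ⟨d, hd, ?_⟩
    simp only [card_residue] at hde
    rw [hde, hfr, Nat.card_zmod, fpoly]
    simp
  have hf : fpoly ∈ P := by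
    by_contra hf
    have hfin : ∀ d ∈ P, {x : ℤ | d.eval x = fpoly.eval x}.Finite := by
      intro d hd
      by_contra hinf
      have : d = fpoly := Polynomial.eq_of_infinite_eval_eq d fpoly hinf
      exact hf (this ▸ hd)
    have hU : (⋃ d ∈ P, {x : ℤ | d.eval x = fpoly.eval x}).Finite :=
      P.finite_toSet.biUnion hfin
    have hinf : (((fun n : ℕ => (n : ℤ)) '' ({p : ℕ | p.Prime} \ {n : ℕ | n ≤ 2}))).Infinite := by
      apply Set.Infinite.image
      · exact Nat.cast_injective.injOn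
      · exact Nat.infinite_setOfPred_prime.sdiff (Set.finite_le_nat 2)
    apply hinf
    refine hU.subset ?_
    rintro _ ⟨p, ⟨hp, hp2⟩, rfl⟩
    obtain ⟨d, hd, hde⟩ := hbig p hp (by simpa using hp2)
    simp only [Set.mem_iUnion]
    exact ⟨d, hd, hde⟩
  -- contradiction at `p = 2`
  have : Fact (Nat.Prime 2) := ⟨Nat.prime_two⟩
  have hmem : (168 : ℤ) ∈ (fun d : Polynomial ℤ => d.eval
      (Nat.card (IsLocalRing.ResidueField ℤ_[2]) : ℤ)) '' (P : Set (Polynomial ℤ)) := by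
    refine ⟨fpoly, hf, ?_⟩
    simp only [card_residue, fpoly]
    simp
  rw [← hP ℤ_[2]] at hmem
  obtain ⟨V, i1, i2, ρ, hfd, hnt, hirr, -, hfr⟩ := hmem
  have := small_bound (redA_surjective 2) (redA_sqZero 2) _ (redA_p 2) (redA_gen 2) ρ hirr
  have h168 : Module.finrank ℂ V = 168 := by exact_mod_cast hfr
  omega

end Pool.Agent.S02070
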