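import Pool.Statements.S02743
import Pool.Agent.Lib.MP_b21f3c_al.Final

set_option autoImplicit false
open Pool Pool.MP_b21f3c_al

namespace Pool.Agent.S02743

/-- Among saturated subgroup-closed formations of finite groups that contain all supersoluble groups and in which joins of two normal supersoluble subgroups stay supersoluble, there is one containing all the others. -/
theorem result :
    ∀ (U : (G : Type) → [Group G] → Prop),
      (∀ (G : Type) [Group G], U G ↔
        ∃ (n : ℕ) (s : Fin (n + 1) → Subgroup G), s 0 = ⊥ ∧ s (Fin.last n) = ⊤ ∧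
          (∀ i, (s i).Normal) ∧
          ∀ i : Fin n, s i.castSucc ≤ s i.succ ∧
            ∃ g ∈ s i.succ, ∀ x ∈ s i.succ, ∃ k : ℤ, x * (g ^ k)⁻¹ ∈ s i.castSucc) →
      ∀ (Mem : ((G : Type) → [Group G] → Prop) → Prop),
        (∀ H : (G : Type) → [Group G] → Prop, Mem H ↔
          ((∀ (G G' : Type) [Group G] [Group G'], Finite G → Nonempty (G ≃* G') → H G → H G') ∧
           (∀ (G : Type) [Group G] [Finite G] (N : Subgroup G) [N.Normal], H G → H (G ⧸ N)) ∧
           (∀ (G : Type) [Group G] [Finite G] (N₁ N₂ : Subgroup G) [N₁.Normal] [N₂.Normal],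
              N₁ ⊓ N₂ = ⊥ → H (G ⧸ N₁) → H (G ⧸ N₂) → H G) ∧
           (∀ (G : Type) [Group G] [Finite G] (K : Subgroup G), H G → H ↥K) ∧
           (∀ (G : Type) [Group G] [Finite G], H (G ⧸ frattini G) → H G) ∧
           (∀ (G : Type) [Group G] [Finite G], U G → H G) ∧
           (∀ (G : Type) [Group G] [Finite G], H G → ∀ A B : Subgroup G, A.Normal → B.Normal →
              U ↥A → U ↥B → U ↥(A ⊔ B)))) →
        ∃ H : (G : Type) → [Group G] → Prop, Mem H ∧
          ∀ H' : (G : Type) → [Group G] → Prop, Mem H' →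
            ∀ (G : Type) [Group G] [Finite G], H' G → H G := by
  intro U hU Mem hMem
  have hU' : ∀ (G : Type) [Group G], U G ↔ Pool.Agent.Lib.MP_b21f3c_al.SS G := hU
  have hcl := Pool.Agent.Lib.MP_b21f3c_al.cl_H0
  refine ⟨fun G _ => Pool.Agent.Lib.MP_b21f3c_al.H0 G, ?_, ?_⟩
  · rw [hMem]
    refine ⟨hcl.iso, hcl.quot, hcl.subd, hcl.her, hcl.sat, ?_, ?_⟩
    · intro G _ _ h
      exact hcl.ss G ((hU' G).1 h)
    · intro G _ _ h A B hA hB hUA hUB
      exact (hU' _).2 (hcl.rad G h A B hA hB ((hU' _).1 hUA) ((hU' _).1 hUB))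
  · intro H' hH' G _ _ hG
    obtain ⟨h1, h2, h3, h4, h5, h6, h7⟩ := (hMem H').1 hH'
    have hcl' : Pool.Agent.Lib.MP_b21f3c_al.Cl H' :=
      { iso := h1
        quot := h2
        subd := h3
        her := h4
        sat := h5
        ss := by
          intro G _ _ h
          exact h6 G ((hU' G).2 h)
        rad := by
          intro G _ _ h A B hA hB hSA hSB
          exact (hU' _).1 (h7 G h A B hA hB ((hU' _).2 hSA) ((hU' _).2 hSB)) }
    exact hcl'.le_H0 hG

end Pool.Agent.S02743
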