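import Pool.Statements.S03439
import Pool.Agent.Lib.MP_ea7a64_al_h50.Final

set_option autoImplicit false
open Pool Pool.MP_ea7a64_al

namespace Pool.Agent.S03439

/-- Any Noetherian local Gorenstein ring with uncountable residue field and only countably many isomorphism classes of indecomposable maximal Cohen–Macaulay modules has embedding dimension at most dimension plus one, i.e. is a hypersurface. -/
theorem result :
    ∀ (R : Type) [CommRing R] [IsNoetherianRing R] [IsLocalRing R],
      ¬ Countable (IsLocalRing.ResidueField R) →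
      (∃ rs : List R, (∀ r ∈ rs, r ∈ IsLocalRing.maximalIdeal R) ∧
          RingTheory.Sequence.IsWeaklyRegular R rs ∧
          (rs.length : WithBot ℕ∞) = ringKrullDim R ∧
          ∃ K : Ideal R, Ideal.ofList rs < K ∧
            ∀ K' : Ideal R, Ideal.ofList rs < K' → K ≤ K') →
      (∃ f : ℕ → ModuleCat.{0} R, ∀ M : ModuleCat.{0} R, Module.Finite R M →
          (Nontrivial M ∧ ∀ N₁ N₂ : Submodule R M, IsCompl N₁ N₂ → N₁ = ⊥ ∨ N₂ = ⊥) →
          (∃ rs : List R, (∀ r ∈ rs, r ∈ IsLocalRing.maximalIdeal R) ∧
            RingTheory.Sequence.IsWeaklyRegular M rs ∧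
            (rs.length : WithBot ℕ∞) = ringKrullDim R) →
          ∃ n : ℕ, Nonempty (M ≃ₗ[R] f n)) →
      (Module.finrank (IsLocalRing.ResidueField R) (IsLocalRing.CotangentSpace R) : WithBot ℕ∞)
        ≤ ringKrullDim R + 1 := by
  intro R _ _ _ hk hG hC
  exact EA7.hypersurface R hk hG hC

end Pool.Agent.S03439
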