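import Pool.Statements.S03669
import Pool.Agent.Lib.MP_0170ef_an.Asm
import Pool.Agent.Lib.MP_0170ef_an_helper55.Frozen

set_option autoImplicit false
open Pool Pool.MP_0170ef_an

namespace Pool.Agent.S03669

/-- For u''+(2/r)u'+λ(u^4+u^7)=0, u'(0)=u(1)=0, u>0, the positive-solution set in the (λ,u(0)) plane has two lowest connected components, each with one turning point: λ strictly decreases then strictly increases as u(0) grows. -/
theorem result :
    ∀ S : Set (ℝ × ℝ),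
      (∀ l a : ℝ, (l, a) ∈ S ↔
        (0 < l ∧ ∃ u : ℝ → ℝ, ∃ ε : ℝ, 0 < ε ∧
          ContDiffOn ℝ 2 u (Set.Ioo (-ε) (1 + ε)) ∧
          u 0 = a ∧ deriv u 0 = 0 ∧ u 1 = 0 ∧
          (∀ r ∈ Set.Ico (0:ℝ) 1, 0 < u r) ∧
          ∀ r ∈ Set.Ioc (0:ℝ) 1,
            deriv (deriv u) r + 2 / r * deriv u r + l * (u r ^ 4 + u r ^ 7) = 0)) →
      ∃ x1 ∈ S, ∃ x2 ∈ S,
        connectedComponentIn S x1 ≠ connectedComponentIn S x2 ∧
        (∀ y ∈ S, y ∉ connectedComponentIn S x1 → y ∉ connectedComponentIn S x2 →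
          ∀ z ∈ connectedComponentIn S x1 ∪ connectedComponentIn S x2, z.2 < y.2) ∧
        ∀ x ∈ ({x1, x2} : Set (ℝ × ℝ)),
          ∃ t ∈ connectedComponentIn S x,
            (∀ y ∈ connectedComponentIn S x, ∀ z ∈ connectedComponentIn S x,
              y.2 < z.2 → z.2 ≤ t.2 → z.1 < y.1) ∧
            (∀ y ∈ connectedComponentIn S x, ∀ z ∈ connectedComponentIn S x,
              y.2 < z.2 → t.2 ≤ y.2 → y.1 < z.1) := by
  exact LinNi.H55.frozen_of_main LinNi.mainFact

end Pool.Agent.S03669
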