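import Pool.Statements.S04019
import Pool.Agent.Lib.MP_1fcdcf_an.Final

set_option autoImplicit false
open MeasureTheory
open Pool Pool.MP_1fcdcf_an

namespace Pool.Agent.S04019

/-- For every d ≥ 1 and 0 < s < d, the minimal Riesz s-energy of N distinct points on the unit sphere S^d, minus N² times the continuous energy under normalized surface measure, divided by N^(1+s/d), converges to a real constant. -/
theorem result :
  ∀ (d : ℕ), 1 ≤ d → ∀ s : ℝ, 0 < s → s < (d : ℝ) →
    ∃ C : ℝ, Filter.Tendsto
      (fun N : ℕ =>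
        (sInf {E : ℝ | ∃ x : Fin N → Metric.sphere (0 : EuclideanSpace ℝ (Fin (d+1))) 1,
            Function.Injective x ∧
            E = ∑ i, ∑ j ∈ Finset.univ.erase i,
                  ‖((x i : EuclideanSpace ℝ (Fin (d+1))) - (x j : EuclideanSpace ℝ (Fin (d+1))))‖ ^ (-s)}
         - (N : ℝ) ^ 2 *
            ∫ x, ∫ y, ‖((x : EuclideanSpace ℝ (Fin (d+1))) - (y : EuclideanSpace ℝ (Fin (d+1))))‖ ^ (-s)
              ∂(((volume : Measure (EuclideanSpace ℝ (Fin (d+1)))).toSphere Set.univ)⁻¹ •
                  (volume : Measure (EuclideanSpace ℝ (Fin (d+1)))).toSphere)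
              ∂(((volume : Measure (EuclideanSpace ℝ (Fin (d+1)))).toSphere Set.univ)⁻¹ •
                  (volume : Measure (EuclideanSpace ℝ (Fin (d+1)))).toSphere))
        / (N : ℝ) ^ (1 + s / (d : ℝ)))
      Filter.atTop (nhds C) := by
  intro d hd s hs hsd
  exact Pool.Agent.Lib.MP_1fcdcf_an.main hs hd hsd

end Pool.Agent.S04019
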