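import Pool.Statements.S04961
import Pool.Agent.Lib.MP_6c36f4_an.Final

set_option autoImplicit false
open MeasureTheory
open Pool Pool.MP_6c36f4_an

namespace Pool.Agent.S04961

/-- Proof of the frozen statement. The domain is `Om` in dimension two: the union of the polydiscs
`|z| < 16 ^ n, |w| < 8 ^ (-n)` and `|z - n| < 32 ^ (-n) / (n + 1), |w| < 4 ^ n`. Its Bergman space is
one-dimensional, spanned by the coordinate function `w`, which lies in `L ^ p` for `1 ≤ p ≤ 3` and not for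
`p > 3`; hence the Bergman projection is bounded exactly for `3 / 2 ≤ p ≤ 3`. -/
theorem result : ∃ n : ℕ, 1 ≤ n ∧ ∃ Ω : Set (Fin n → ℂ), IsOpen Ω ∧ IsConnected Ω ∧
    ∃ a b : ℝ, 1 < a ∧ a < b ∧ ∀ p : ℝ, 1 < p →
      ((∃ C : ℝ, ∀ f g : (Fin n → ℂ) → ℂ,
          MemLp f 2 (volume.restrict Ω) →
          MemLp f (ENNReal.ofReal p) (volume.restrict Ω) →
          DifferentiableOn ℂ g Ω →
          MemLp g 2 (volume.restrict Ω) →
          (∀ h : (Fin n → ℂ) → ℂ, DifferentiableOn ℂ h Ω → MemLp h 2 (volume.restrict Ω) →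
              ∫ z in Ω, (f z - g z) * (starRingEnd ℂ) (h z) = 0) →
          eLpNorm g (ENNReal.ofReal p) (volume.restrict Ω)
            ≤ ENNReal.ofReal C * eLpNorm f (ENNReal.ofReal p) (volume.restrict Ω))
        ↔ (a ≤ p ∧ p ≤ b)) := by
  refine ⟨2, by norm_num, Lib.MP_6c36f4_an.Om, Lib.MP_6c36f4_an.Om_open,
    Lib.MP_6c36f4_an.Om_connected, 3 / 2, 3, by norm_num, by norm_num, ?_⟩
  intro p hp
  constructor
  · rintro ⟨C, hC⟩
    exact Lib.MP_6c36f4_an.not_bounded hp hC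
  · rintro ⟨h1, h2⟩
    exact Lib.MP_6c36f4_an.upper_bound h1 h2

end Pool.Agent.S04961
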