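import Pool.Statements.S05221
import Pool.Agent.Lib.MP_816dec_an.PTop4

set_option autoImplicit false
open Pool Pool.MP_816dec_an

namespace Pool.Agent.S05221

/-- For every complex q with 0<∣q∣≤1, let F(z)=sum over k of q^(k(k-1)/2) z^k/k!. Then F has nonzero derivative at each of its zeros, and any two zeros of F with equal absolute value are equal. -/
theorem result : ∀ q : ℂ, 0 < ‖q‖ → ‖q‖ ≤ 1 →
    (∀ z : ℂ, (∑' k : ℕ, q ^ (k * (k - 1) / 2) * z ^ k / (k.factorial : ℂ)) = 0 →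
      deriv (fun w : ℂ => ∑' k : ℕ, q ^ (k * (k - 1) / 2) * w ^ k / (k.factorial : ℂ)) z ≠ 0) ∧
    (∀ z w : ℂ, (∑' k : ℕ, q ^ (k * (k - 1) / 2) * z ^ k / (k.factorial : ℂ)) = 0 →
      (∑' k : ℕ, q ^ (k * (k - 1) / 2) * w ^ k / (k.factorial : ℂ)) = 0 →
      ‖z‖ = ‖w‖ → z = w) :=
  SokC.top4

end Pool.Agent.S05221
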