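import Pool.Statements.S05582
import Pool.Agent.Lib.MP_9ef1f5_an_helper27.Algebra
import Pool.Agent.Lib.MP_9ef1f5_an_helper32.Instance
-- import your own Pool.Agent.* helpers here

set_option autoImplicit false
open scoped Manifold
open Pool Pool.MP_9ef1f5_an

namespace Pool.Agent.S05582

/-- The negation of the preceding statement: For every Riemann surface whose bounded holomorphic functions separate points, and every simple closed curve disconnecting it, the curve (as point evaluations) also disconnects the maximal ideal space of bounded holomorphic functions in its Gelfand topology. -/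
theorem result :
    ¬ (∀ (R : Type) [TopologicalSpace R] [T2Space R] [ConnectedSpace R] [ChartedSpace ℂ R]
      [IsManifold 𝓘(ℂ) ⊤ R],
      (∀ z w : R, z ≠ w → ∃ f : R → ℂ, MDifferentiable 𝓘(ℂ) 𝓘(ℂ) f ∧
          (∃ C : ℝ, ∀ x, ‖f x‖ ≤ C) ∧ f z ≠ f w) →
      ∀ γ : Circle → R, Continuous γ → Function.Injective γ →
        ¬ IsPreconnected (Set.range γ)ᶜ →
        ¬ IsPreconnected
          ({φ : {f : R → ℂ // MDifferentiable 𝓘(ℂ) 𝓘(ℂ) f ∧ ∃ C : ℝ, ∀ x, ‖f x‖ ≤ C} → ℂ |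
              (∀ u : {f : R → ℂ // MDifferentiable 𝓘(ℂ) 𝓘(ℂ) f ∧ ∃ C : ℝ, ∀ x, ‖f x‖ ≤ C},
                  u.1 = (fun _ => (1 : ℂ)) → φ u = 1) ∧
              (∀ f g h : {f : R → ℂ // MDifferentiable 𝓘(ℂ) 𝓘(ℂ) f ∧ ∃ C : ℝ, ∀ x, ‖f x‖ ≤ C},
                  h.1 = f.1 + g.1 → φ h = φ f + φ g) ∧
              (∀ f g h : {f : R → ℂ // MDifferentiable 𝓘(ℂ) 𝓘(ℂ) f ∧ ∃ C : ℝ, ∀ x, ‖f x‖ ≤ C},
                  h.1 = f.1 * g.1 → φ h = φ f * φ g) ∧
              (∀ (c : ℂ) (f h : {f : R → ℂ // MDifferentiable 𝓘(ℂ) 𝓘(ℂ) f ∧ ∃ C : ℝ, ∀ x, ‖f x‖ ≤ C}),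
                  h.1 = c • f.1 → φ h = c * φ f)} \
           {φ : {f : R → ℂ // MDifferentiable 𝓘(ℂ) 𝓘(ℂ) f ∧ ∃ C : ℝ, ∀ x, ‖f x‖ ≤ C} → ℂ |
              ∃ t : Circle, ∀ f : {f : R → ℂ // MDifferentiable 𝓘(ℂ) 𝓘(ℂ) f ∧ ∃ C : ℝ, ∀ x, ‖f x‖ ≤ C},
                φ f = f.1 (γ t)})) := by
  intro hmain
  obtain ⟨D⟩ := Pool.Agent.H32Cover.exists_coverData
  exact hmain (Pool.Agent.H27.Surf D) Pool.Agent.H27.separates (Pool.Agent.H27.gam D)
    Pool.Agent.H27.continuous_gam Pool.Agent.H27.injective_gam Pool.Agent.H27.not_isPreconnected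
    Pool.Agent.H27.isPreconnected_final

end Pool.Agent.S05582
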