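import Pool.Statements.S06761
import Pool.Agent.Lib.MP_f8d220_an.Final

set_option autoImplicit false
open Pool Pool.MP_f8d220_an

namespace Pool.Agent.S06761

/-- For every ε>0 there are arbitrarily large n and a degree-n polynomial with all coefficients of modulus 1 whose derivative's max modulus on the unit circle is at most (1+ε) times its min modulus there. -/
theorem result :
    ∀ ε : ℝ, 0 < ε → ∀ N : ℕ, ∃ n : ℕ, N ≤ n ∧ ∃ a : ℕ → ℂ, (∀ k ≤ n, ‖a k‖ = 1) ∧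
      ∀ z w : ℂ, ‖z‖ = 1 → ‖w‖ = 1 →
        ‖∑ k ∈ Finset.range (n + 1), (k : ℂ) * a k * z ^ (k - 1)‖ ≤
          (1 + ε) * ‖∑ k ∈ Finset.range (n + 1), (k : ℂ) * a k * w ^ (k - 1)‖ := by
  intro ε hε N
  obtain ⟨N₀, hN₀⟩ := Pool.Agent.Lib.MP_f8d220_an.ultraflat_derivatives ε hε
  obtain ⟨a, ha, h⟩ := hN₀ (max N N₀) (le_max_right _ _)
  exact ⟨max N N₀, le_max_left _ _, a, fun k _ => ha k, h⟩

end Pool.Agent.S06761
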