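import Pool.Statements.S07062
import Pool.Agent.Lib.MP_0960bd_co.Final
import Pool.Agent.Lib.MP_0960bd_co.EncMain
-- import your own Pool.Agent.* helpers here

set_option autoImplicit false
open MeasureTheory
open Pool Pool.MP_0960bd_co

namespace Pool.Agent.S07062

/-- The negation of the preceding statement: For every dimension d and every set T in R^d homeomorphic to the closed unit ball: if T tiles R^d by translations (almost every point is covered exactly once), then it has such a tiling invariant under d linearly independent translations. -/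
theorem result :
    ¬ (∀ (d : ℕ) (T : Set (EuclideanSpace ℝ (Fin d))),
      Nonempty (T ≃ₜ Metric.closedBall (0 : EuclideanSpace ℝ (Fin d)) 1) →
      (∃ Λ : Set (EuclideanSpace ℝ (Fin d)),
        ∀ᵐ x ∂(volume : Measure (EuclideanSpace ℝ (Fin d))),
          ∃! t, t ∈ Λ ∧ x - t ∈ T) →
      ∃ Λ : Set (EuclideanSpace ℝ (Fin d)),
        (∀ᵐ x ∂(volume : Measure (EuclideanSpace ℝ (Fin d))),
          ∃! t, t ∈ Λ ∧ x - t ∈ T) ∧
        ∃ v : Fin d → EuclideanSpace ℝ (Fin d),
          LinearIndependent ℝ v ∧
            ∀ i, ∀ t ∈ Λ, t + v i ∈ Λ ∧ t - v i ∈ Λ) := by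
  exact Pool.Agent.BallTile.geometry Pool.Agent.BallTile.discreteMain

end Pool.Agent.S07062
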