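-- Proof of the frozen statement S08275 (Lonc's conjecture for the truncated Boolean lattice).
import Pool.Statements.S08275
import Pool.Agent.Lib.MP_3e31c9.Final

set_option autoImplicit false
open Pool Pool.MP_3e31c9_co

namespace Pool.Agent.S08275

open Pool.Agent.Lib.MP_3e31c9

/-- Conversion of a tiling to the form of the statement. -/
theorem convert_tiling (α : Type) [Fintype α] [PartialOrder α] [Nonempty α] (n : ℕ)
    (h : Tiles α (Set (Fin n))) :
    ∃ (k : ℕ) (e : Fin k → α → Finset (Fin n)),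
      (∀ (i : Fin k) (a b : α), e i a ≤ e i b ↔ a ≤ b) ∧
      (∀ (i : Fin k) (a : α), e i a ≠ ∅ ∧ e i a ≠ Finset.univ) ∧
      (∀ s : Finset (Fin n), s ≠ ∅ → s ≠ Finset.univ →
        ∃! p : Fin k × α, e p.1 p.2 = s) := by
  classical
  have h' : Tiles α (Finset (Fin n)) :=
    Tiles.congr (Fintype.finsetOrderIsoSet (α := Fin n)).symm h
  obtain ⟨I, e, he, hr, ho⟩ := h'
  obtain ⟨a₀⟩ := ‹Nonempty α›
  have hI : Finite I := Finite.of_injective (fun i => e (i, a₀)) (fun i j hij => by
    have := he hij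
    simpa using this)
  have : Fintype I := Fintype.ofFinite I
  let f : Fin (Fintype.card I) ≃ I := (Fintype.equivFin I).symm
  refine ⟨Fintype.card I, fun i a => e (f i, a), fun i a b => ho (f i) a b, fun i a => ?_, ?_⟩
  · exact (hr _).1 ⟨(f i, a), rfl⟩
  · intro s h1 h2
    obtain ⟨⟨i, a⟩, hia⟩ := (hr s).2 ⟨h1, h2⟩
    refine ⟨(f.symm i, a), ?_, ?_⟩
    · simp only [Equiv.apply_symm_apply]
      exact hia
    · rintro ⟨j, b⟩ hjb
      simp only at hjb
      have h3 := he (hjb.trans hia.symm)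
      simp only [Prod.mk.injEq] at h3
      rw [h3.2, ← h3.1, Equiv.symm_apply_apply]

/-- For every finite poset P there is N such that for all n ≥ N with ∣P∣ dividing 2^n − 2, the nonempty proper subsets of an n-set, ordered by inclusion, split into disjoint induced copies of P. -/
theorem result :
    ∀ (α : Type) [Fintype α] [PartialOrder α],
      ∃ N : ℕ, ∀ n : ℕ, N ≤ n → Fintype.card α ∣ 2 ^ n - 2 →
        ∃ (k : ℕ) (e : Fin k → α → Finset (Fin n)),
          (∀ (i : Fin k) (a b : α), e i a ≤ e i b ↔ a ≤ b) ∧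
          (∀ (i : Fin k) (a : α), e i a ≠ ∅ ∧ e i a ≠ Finset.univ) ∧
          (∀ s : Finset (Fin n), s ≠ ∅ → s ≠ Finset.univ →
            ∃! p : Fin k × α, e p.1 p.2 = s) := by
  intro α _ _
  rcases Nat.lt_or_ge (Fintype.card α) 2 with hlt | hge
  · rcases Nat.lt_or_ge (Fintype.card α) 1 with hlt1 | hge1
    · -- the empty poset: no admissible `n`
      refine ⟨2, fun n hn hdiv => ?_⟩
      exfalso
      have h0 : Fintype.card α = 0 := by omega
      rw [h0, zero_dvd_iff] at hdiv
      have h1 : 2 ^ 2 ≤ 2 ^ n := Nat.pow_le_pow_right (by norm_num) hn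
      omega
    · -- the one-element poset
      have h1 : Fintype.card α = 1 := by omega
      obtain ⟨a₀, ha₀⟩ := Fintype.card_eq_one_iff.1 h1
      have hne : Nonempty α := ⟨a₀⟩
      refine ⟨0, fun n _ _ => convert_tiling α n ?_⟩
      refine ⟨{y : Set (Fin n) // y ≠ ⊥ ∧ y ≠ ⊤}, fun q => q.1.1, ?_, ?_, ?_⟩
      · rintro ⟨i, a⟩ ⟨j, b⟩ h
        have hij : i = j := Subtype.ext h
        rw [ha₀ a, ha₀ b, hij]
      · intro y
        constructor
        · rintro ⟨⟨i, a⟩, rfl⟩
          exact i.2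
        · intro hy
          exact ⟨(⟨y, hy⟩, a₀), rfl⟩
      · intro i a b
        rw [ha₀ a, ha₀ b]
        simp
  · have hne : Nonempty α := Fintype.card_pos_iff.1 (by omega)
    obtain ⟨N, hN⟩ := eventually_G α hge
    refine ⟨N + 1, fun n hn hdiv => convert_tiling α n ?_⟩
    obtain ⟨x, rfl⟩ : ∃ x, n = x + 1 := ⟨n - 1, by omega⟩
    exact hN x (by omega) hdiv

end Pool.Agent.S08275
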