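import Pool.Statements.S09907
import Pool.Agent.Lib.MP_876e19_co_ups.N520

set_option autoImplicit false
open Pool Pool.MP_876e19_co

namespace Pool.Agent.S09907

/-- Every finite connected vertex-transitive graph admits a choice of one path from x to y for each ordered pair of distinct vertices such that every vertex lies on the same number of chosen paths. -/
theorem result :
    ∀ (V : Type) [Finite V] (G : SimpleGraph V),
      G.Connected →
      (∀ x y : V, ∃ φ : G ≃g G, φ x = y) →
      ∃ P : ∀ x y : V, G.Walk x y,
        (∀ x y : V, x ≠ y → (P x y).IsPath) ∧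
        ∃ c : ℕ, ∀ v : V,
          {p : V × V | p.1 ≠ p.2 ∧ v ∈ (P p.1 p.2).support}.ncard = c :=
  Pool.Agent.UPS.Asm.frozen_of Pool.Agent.UPS.Asm.all_graphs

end Pool.Agent.S09907
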