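-- Proof of frozen statement S10267 (strong chromatic number versus derived-graph chromatic number).
import Pool.Statements.S10267
import Pool.Agent.Lib.MP_96d021.Main

set_option autoImplicit false
open Pool Pool.MP_96d021_co

namespace Pool.Agent.S10267

/-- There is a positive f such that every finite multi-hypergraph of rank at most r (r ≥ 1) whose derived graphs are all d-colourable has a strong colouring with at most f(d)·r colours. -/
theorem result :
    ∃ f : ℕ → ℝ, (∀ n, 0 < f n) ∧
      ∀ (V ι : Type) [Fintype V] [Fintype ι] (e : ι → Finset V) (d r : ℕ),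
        1 ≤ r → (∀ i, (e i).card ≤ r) →
        (∀ p : ι → V × V,
            (∀ i, 2 ≤ (e i).card →
              (p i).1 ∈ e i ∧ (p i).2 ∈ e i ∧ (p i).1 ≠ (p i).2) →
            (SimpleGraph.fromRel
              (fun u v : V => ∃ i, 2 ≤ (e i).card ∧ p i = (u, v))).Colorable d) →
        ∃ k : ℕ, (k : ℝ) ≤ f d * (r : ℝ) ∧
          ∃ c : V → Fin k, ∀ i, Set.InjOn c ((e i : Finset V) : Set V) := by
  classical
  refine ⟨fun d => ((513 * (max d 2) ^ 4 * (max d 2) ^ (4 * max d 2 * (4 * max d 2)) : ℕ) : ℝ),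
    fun n => ?_, ?_⟩
  · have h2 : 0 < max n 2 := by omega
    have : 0 < 513 * (max n 2) ^ 4 * (max n 2) ^ (4 * max n 2 * (4 * max n 2)) := by positivity
    exact Nat.cast_pos.mpr this
  · intro V ι _ _ e d r hr1 hcard hcol
    rcases isEmpty_or_nonempty V with hV | hV
    · refine ⟨0, ?_, fun x => hV.elim x, fun i x _ => hV.elim x⟩
      rw [Nat.cast_zero]
      exact mul_nonneg (Nat.cast_nonneg _) (Nat.cast_nonneg _)
    · set k := max d 2 with hk
      have hk2 : 2 ≤ k := le_max_right _ _
      have hall : Pool.Agent.Lib.MP_96d021.AllCol e k := by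
        intro p hp
        obtain ⟨C⟩ := (hcol p hp).mono (le_max_left d 2)
        refine ⟨fun x => C x, fun i hi => ?_⟩
        apply C.valid
        rw [SimpleGraph.fromRel_adj]
        exact ⟨(hp i hi).2.2, Or.inl ⟨i, hi, rfl⟩⟩
      obtain ⟨c, hc⟩ := Pool.Agent.Lib.MP_96d021.strong_colouring hk2 hall hcard
      have hcardeq : Fintype.card
          (Fin (512 * k ^ 4 * r + 1) × (Fin (4 * k) × Fin (4 * k) → Fin k)) =
          (512 * k ^ 4 * r + 1) * k ^ (4 * k * (4 * k)) := by
        simp [Fintype.card_prod]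
      refine ⟨(512 * k ^ 4 * r + 1) * k ^ (4 * k * (4 * k)), ?_,
        fun x => (Fintype.equivFinOfCardEq hcardeq) (c x), ?_⟩
      · have h1 : (512 * k ^ 4 * r + 1) * k ^ (4 * k * (4 * k)) ≤
            513 * k ^ 4 * k ^ (4 * k * (4 * k)) * r := by
          have h2 : 1 ≤ k ^ 4 * r := by
            have : 0 < k ^ 4 * r := by positivity
            exact this
          calc (512 * k ^ 4 * r + 1) * k ^ (4 * k * (4 * k))
              ≤ (512 * k ^ 4 * r + k ^ 4 * r) * k ^ (4 * k * (4 * k)) :=
                Nat.mul_le_mul_right _ (Nat.add_le_add_left h2 _)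
            _ = _ := by ring
        change (((512 * k ^ 4 * r + 1) * k ^ (4 * k * (4 * k)) : ℕ) : ℝ) ≤
          ((513 * k ^ 4 * k ^ (4 * k * (4 * k)) : ℕ) : ℝ) * (r : ℝ)
        rw [← Nat.cast_mul]
        exact Nat.cast_le.mpr h1
      · intro i u hu v hv huv
        exact hc i u hu v hv ((Fintype.equivFinOfCardEq hcardeq).injective huv)

end Pool.Agent.S10267
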