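import Pool.Statements.S10346
import Mathlib

/-!
# The reciprocal EGF of permutations avoiding `264153` consecutively is not entire

All self-overlaps of the pattern `264153` have odd shift (`3` or `5`), so in the signed cluster
expansion of the reciprocal of the exponential generating function all clusters of a given length
have the same sign.  Clusters with alternating shifts `3, 5, 3, 5, ..., 3` impose only a poset of
height `7`, hence are satisfied by at least `n! / 7 ^ n` permutations.
-/

set_option autoImplicit false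
open Pool Pool.MP_9a52ae_co

namespace Pool.Agent.S10346

open Finset

/-- The exponential generating function of a sequence dominated by `n!` is analytic at `0`, with
the expected iterated derivatives. -/
lemma egf_analytic (α : ℕ → ℂ) (hα : ∀ n, ‖α n‖ ≤ (n.factorial : ℝ)) (F : ℂ → ℂ)
    (hF : ∀ z, F z = ∑' n : ℕ, α n * z ^ n / ((Nat.factorial n : ℕ) : ℂ)) :
    AnalyticAt ℂ F 0 ∧ ∀ n, iteratedDeriv n F 0 = α n := by
  set c : ℕ → ℂ := fun n => α n / (n.factorial : ℂ) with hc
  set p := (FormalMultilinearSeries.ofScalars ℂ c : FormalMultilinearSeries ℂ ℂ ℂ) with hp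
  have hcn : ∀ n, ‖c n‖ ≤ 1 := by
    intro n
    rw [hc]
    simp only [norm_div, Complex.norm_natCast]
    rw [div_le_one (by positivity)]
    exact hα n
  have hrad : (1 : ENNReal) ≤ p.radius := by
    have := p.le_radius_of_bound 1 (r := 1) (fun n => by
      simp only [NNReal.coe_one, one_pow, mul_one]
      rw [hp, FormalMultilinearSeries.ofScalars_norm]
      exact hcn n)
    simpa using this
  have hball : HasFPowerSeriesOnBall p.sum p 0 p.radius :=
    p.hasFPowerSeriesOnBall (lt_of_lt_of_le one_pos hrad)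
  have hsum : p.sum = F := by
    funext z
    rw [hF z, FormalMultilinearSeries.sum]
    refine tsum_congr fun n => ?_
    rw [hp, FormalMultilinearSeries.ofScalars_apply_eq, smul_eq_mul, hc]
    ring
  rw [hsum] at hball
  have hat : HasFPowerSeriesAt F p 0 := hball.hasFPowerSeriesAt
  have han : AnalyticAt ℂ F 0 := hat.analyticAt
  refine ⟨han, fun n => ?_⟩
  have h2 := han.hasFPowerSeriesAt
  have h3 := hat.eq_formalMultilinearSeries h2
  have h4 : p.coeff n = (FormalMultilinearSeries.ofScalars ℂ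
    (fun n ↦ iteratedDeriv n F 0 / n.factorial)).coeff n := by rw [h3]
  rw [hp, FormalMultilinearSeries.coeff_ofScalars, FormalMultilinearSeries.coeff_ofScalars] at h4
  have hne : ((n.factorial : ℕ) : ℂ) ≠ 0 := by exact_mod_cast n.factorial_ne_zero
  rw [hc] at h4
  field_simp at h4
  exact h4.symm

/-- If `f` is entire and `f * F = 1` near `0`, then the Taylor coefficients of `f` satisfy the
binomial convolution identity. -/
lemma conv_identity (α : ℕ → ℂ) (F f : ℂ → ℂ) (hF : AnalyticAt ℂ F 0)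
    (hFd : ∀ n, iteratedDeriv n F 0 = α n) (hf : Differentiable ℂ f)
    (hfF : ∀ᶠ z in nhds (0 : ℂ), f z * F z = 1) (n : ℕ) :
    ∑ i ∈ range (n + 1), (n.choose i : ℂ) * iteratedDeriv i f 0 * α (n - i)
      = if n = 0 then 1 else 0 := by
  have hfa : AnalyticAt ℂ f 0 := hf.analyticAt 0
  have h1 : iteratedDeriv n (f * F) 0 = if n = 0 then 1 else 0 := by
    have h2 : (f * F) =ᶠ[nhds 0] (fun _ => (1 : ℂ)) := hfF
    rw [(h2.iteratedDeriv n).eq_of_nhds, iteratedDeriv_const]
  rw [← h1, iteratedDeriv_mul hfa.contDiffAt hF.contDiffAt]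
  refine Finset.sum_congr rfl fun i _ => ?_
  rw [hFd]

/-- Cauchy estimate: the Taylor coefficients of an entire function satisfy
`|f^(n)(0)| R^n ≤ C n!`. -/
lemma cauchy_entire (f : ℂ → ℂ) (hf : Differentiable ℂ f) (R : ℝ) (hR : 0 < R) :
    ∃ C : ℝ, ∀ n, ‖iteratedDeriv n f 0‖ * R ^ n ≤ C * (n.factorial : ℝ) := by
  obtain ⟨C, hC⟩ := (isCompact_sphere (0 : ℂ) R).exists_bound_of_continuousOn
    hf.continuous.continuousOn
  refine ⟨C, fun n => ?_⟩
  have h := Complex.norm_iteratedDeriv_le_of_forall_mem_sphere_norm_le (f := f) (c := 0) n hR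
    hf.diffContOnCl hC
  rw [le_div_iff₀ (by positivity)] at h
  linarith

/-- The pattern `264153` (written `1 5 3 0 4 2` when values start at `0`). -/
def sigma : Equiv.Perm (Fin 6) where
  toFun := ![1, 5, 3, 0, 4, 2]
  invFun := ![3, 0, 5, 2, 4, 1]
  left_inv := by decide
  right_inv := by decide

/-- A permutation of `Fin n` as a sequence of natural numbers (zero outside the range). -/
def ext {n : ℕ} (π : Equiv.Perm (Fin n)) (p : ℕ) : ℕ :=
  if h : p < n then ((π ⟨p, h⟩ : Fin n) : ℕ) else 0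

/-- The sequence `x` has an occurrence of the pattern at position `i`. -/
def Occ (x : ℕ → ℕ) (i : ℕ) : Prop :=
  x (i + 3) < x i ∧ x i < x (i + 5) ∧ x (i + 5) < x (i + 2) ∧ x (i + 2) < x (i + 4) ∧
    x (i + 4) < x (i + 1)

lemma occ_iff (x : ℕ → ℕ) (i : ℕ) :
    (∀ a b : Fin 6, (sigma a < sigma b ↔ x (i + (a : ℕ)) < x (i + (b : ℕ)))) ↔ Occ x i := by
  constructor
  · intro h
    refine ⟨?_, ?_, ?_, ?_, ?_⟩
    · exact (h 3 0).1 (by decide)
    · exact (h 0 5).1 (by decide)
    · exact (h 5 2).1 (by decide)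
    · exact (h 2 4).1 (by decide)
    · exact (h 4 1).1 (by decide)
  · rintro ⟨h1, h2, h3, h4, h5⟩ a b
    fin_cases a <;> fin_cases b <;> simp [sigma] <;> omega

lemma occ_congr {x y : ℕ → ℕ} {i j : ℕ}
    (h : ∀ a b, a < 6 → b < 6 → (x (i + a) < x (i + b) ↔ y (j + a) < y (j + b))) :
    Occ x i ↔ Occ y j := by
  have h30 := h 3 0 (by norm_num) (by norm_num)
  have h05 := h 0 5 (by norm_num) (by norm_num)
  have h52 := h 5 2 (by norm_num) (by norm_num)
  have h24 := h 2 4 (by norm_num) (by norm_num)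
  have h41 := h 4 1 (by norm_num) (by norm_num)
  simp only [Nat.add_zero] at h30 h05
  unfold Occ
  rw [h30, h05, h52, h24, h41]

/-- Occurrences at distance `1`, `2` or `4` are impossible. -/
lemma occ_overlap (x : ℕ → ℕ) (i d : ℕ) (h1 : Occ x i) (h2 : Occ x (i + d)) :
    d ≠ 1 ∧ d ≠ 2 ∧ d ≠ 4 := by
  obtain ⟨a1, a2, a3, a4, a5⟩ := h1
  obtain ⟨b1, b2, b3, b4, b5⟩ := h2
  refine ⟨?_, ?_, ?_⟩ <;> rintro rfl
  · have e1 : i + 1 + 3 = i + 4 := by ring
    have e2 : i + 1 + 5 = i + 6 := by ring
    have e3 : i + 1 + 2 = i + 3 := by ring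
    have e4 : i + 1 + 4 = i + 5 := by ring
    have e5 : i + 1 + 1 = i + 2 := by ring
    rw [e1] at *; rw [e2] at *; rw [e3] at *
    omega
  · have e1 : i + 2 + 3 = i + 5 := by ring
    have e2 : i + 2 + 5 = i + 7 := by ring
    have e3 : i + 2 + 2 = i + 4 := by ring
    have e4 : i + 2 + 4 = i + 6 := by ring
    have e5 : i + 2 + 1 = i + 3 := by ring
    rw [e1] at b1; rw [e2] at b2 b3; rw [e3] at b3 b4; rw [e4] at b4 b5; rw [e5] at b5
    omega
  · have e1 : i + 4 + 3 = i + 7 := by ring
    have e2 : i + 4 + 5 = i + 9 := by ring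
    have e3 : i + 4 + 2 = i + 6 := by ring
    have e4 : i + 4 + 4 = i + 8 := by ring
    have e5 : i + 4 + 1 = i + 5 := by ring
    rw [e1] at b1; rw [e2] at b2 b3; rw [e3] at b3 b4; rw [e4] at b4 b5; rw [e5] at b5
    omega

open Classical in
/-- Signed number of chains of marked occurrences from `0` to `i` with steps at most `5`. -/
noncomputable def w (O : ℕ → Prop) : ℕ → ℤ
  | i => if O i then
      (if i = 0 then -1 else - ∑ j : Fin i, if i ≤ j.1 + 5 then w O j.1 else 0) else 0
decreasing_by exact j.2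

open Classical in
lemma w_eq (O : ℕ → Prop) (i : ℕ) :
    w O i = if O i then
      (if i = 0 then -1 else - ∑ j ∈ range i, if i ≤ j + 5 then w O j else 0) else 0 := by
  rw [w, Finset.sum_range]

lemma w_of_not (O : ℕ → Prop) (i : ℕ) (h : ¬ O i) : w O i = 0 := by
  rw [w_eq, if_neg h]

open Classical in
/-- Indicator that there is no occurrence at or after position `i`. -/
noncomputable def e (O : ℕ → Prop) (i : ℕ) : ℤ := if ∀ l, i ≤ l → ¬ O l then 1 else 0

open Classical in
lemma e_step (O : ℕ → Prop) (i : ℕ) :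
    e O (i + 1) - e O i = if O i then e O (i + 1) else 0 := by
  unfold e
  by_cases hi : O i
  · have h1 : ¬ ∀ l, i ≤ l → ¬ O l := fun h => h i le_rfl hi
    rw [if_neg h1, if_pos hi, sub_zero]
  · have h1 : (∀ l, i ≤ l → ¬ O l) ↔ (∀ l, i + 1 ≤ l → ¬ O l) := by
      constructor
      · intro h l hl
        exact h l (by omega)
      · intro h l hl
        rcases Nat.eq_or_lt_of_le hl with h2 | h2
        · rw [← h2]; exact hi
        · exact h l h2
    simp only [h1, hi, if_false, sub_self]

lemma w_congr (O O' : ℕ → Prop) (i : ℕ) (h : ∀ l ≤ i, (O l ↔ O' l)) : w O i = w O' i := by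
  induction i using Nat.strong_induction_on with
  | _ i ih =>
    rw [w_eq, w_eq]
    have hi := h i le_rfl
    by_cases hO : O i
    · rw [if_pos hO, if_pos (hi.1 hO)]
      by_cases h0 : i = 0
      · rw [if_pos h0, if_pos h0]
      · rw [if_neg h0, if_neg h0]
        congr 1
        refine Finset.sum_congr rfl fun j hj => ?_
        rw [Finset.mem_range] at hj
        rw [ih j hj fun l hl => h l (by omega)]
    · rw [if_neg hO, if_neg (fun h' => hO (hi.2 h'))]

lemma telescoping (O : ℕ → Prop) (i : ℕ) (hi : 1 ≤ i) :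
    ∑ j ∈ range i, w O j * e O (min (j + 6) i) = w O 0 * e O 1 := by
  classical
  induction i, hi using Nat.le_induction with
  | base => simp
  | succ i hi ih =>
    rw [Finset.sum_range_succ]
    have h1 : ∑ j ∈ range i, w O j * e O (min (j + 6) (i + 1))
        = ∑ j ∈ range i, w O j * e O (min (j + 6) i)
          + (∑ j ∈ range i, if i ≤ j + 5 then w O j else 0) * (if O i then e O (i + 1) else 0) := by
      rw [Finset.sum_mul, ← Finset.sum_add_distrib]
      refine Finset.sum_congr rfl fun j hj => ?_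
      rw [Finset.mem_range] at hj
      by_cases h5 : i ≤ j + 5
      · rw [if_pos h5, ← e_step, min_eq_right (by omega : i + 1 ≤ j + 6),
          min_eq_right (by omega : i ≤ j + 6)]
        ring
      · rw [if_neg h5, min_eq_left (by omega : j + 6 ≤ i + 1),
          min_eq_left (by omega : j + 6 ≤ i)]
        ring
    rw [h1, ih, min_eq_right (by omega : i + 1 ≤ i + 6)]
    have h2 : w O i = -(if O i then
        (∑ j ∈ range i, if i ≤ j + 5 then w O j else 0) else 0) := by
      rw [w_eq O i]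
      by_cases hO : O i
      · rw [if_pos hO, if_pos hO, if_neg (by omega : ¬ i = 0)]
      · rw [if_neg hO, if_neg hO, neg_zero]
    rw [h2]
    by_cases hO : O i
    · rw [if_pos hO, if_pos hO]; ring
    · rw [if_neg hO, if_neg hO]; ring

/-- Weight attached to a first block of length `m`. -/
noncomputable def u (O : ℕ → Prop) (m : ℕ) : ℤ :=
  if m = 0 then 1 else if m = 1 then -1 else if 6 ≤ m then - w O (m - 6) else 0

lemma block_identity (O : ℕ → Prop) (n : ℕ) (hO : ∀ i, O i → i + 6 ≤ n) :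
    ∑ m ∈ range (n + 1), u O m * e O m = if n = 0 then 1 else 0 := by
  classical
  have he : ∀ i, n ≤ i + 5 → e O i = 1 := by
    intro i hi
    unfold e
    rw [if_pos]
    intro l hl hOl
    have := hO l hOl
    omega
  rcases Nat.eq_zero_or_pos n with rfl | hn
  · simp [u, he 0 (by norm_num)]
  · rw [if_neg (by omega : ¬ n = 0)]
    have ht := telescoping O (n + 6) (by omega)
    -- split off `m = 0, 1`
    have h0 : e O 0 = e O 1 + w O 0 * e O 1 := by
      have h1 := e_step O 0
      rw [w_eq O 0]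
      by_cases hO0 : O 0
      · rw [if_pos hO0] at h1
        rw [if_pos hO0, if_pos rfl]
        simp only [Nat.zero_add] at h1
        linarith
      · rw [if_neg hO0] at h1
        rw [if_neg hO0]
        simp only [Nat.zero_add] at h1
        linarith
    have hsum : ∑ j ∈ range (n + 6), w O j * e O (min (j + 6) (n + 6))
        = ∑ j ∈ range (n + 6), w O j * e O (j + 6) := by
      refine Finset.sum_congr rfl fun j _ => ?_
      by_cases hj : j ≤ n
      · rw [min_eq_left (by omega : j + 6 ≤ n + 6)]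
      · rw [min_eq_right (by omega : n + 6 ≤ j + 6), he (n + 6) (by omega), he (j + 6) (by omega)]
    rw [hsum] at ht
    -- the block sum
    have hbig : ∑ m ∈ range (n + 1), u O m * e O m = ∑ m ∈ range (n + 12), u O m * e O m := by
      refine Finset.sum_subset (fun m hm => ?_) (fun m _ hm2 => ?_)
      · rw [Finset.mem_range] at *; omega
      · rw [Finset.mem_range] at hm2
        have : u O m = 0 := by
          unfold u
          rw [if_neg (by omega), if_neg (by omega)]
          by_cases h6 : 6 ≤ m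
          · rw [if_pos h6, w_of_not O (m - 6) (fun h => by have := hO _ h; omega), neg_zero]
          · rw [if_neg h6]
        rw [this, zero_mul]
    rw [hbig, show n + 12 = 6 + (n + 6) by ring, Finset.sum_range_add]
    have hlow : ∑ m ∈ range 6, u O m * e O m = e O 0 - e O 1 := by
      simp [Finset.sum_range_succ, u]
      ring
    have hhigh : ∑ j ∈ range (n + 6), u O (6 + j) * e O (6 + j)
        = - ∑ j ∈ range (n + 6), w O j * e O (j + 6) := by
      rw [← Finset.sum_neg_distrib]
      refine Finset.sum_congr rfl fun j _ => ?_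
      have : u O (6 + j) = - w O j := by
        unfold u
        rw [if_neg (by omega), if_neg (by omega), if_pos (by omega),
          Nat.add_sub_cancel_left]
      rw [this, Nat.add_comm 6 j]
      ring
    rw [hlow, hhigh, ht, h0]
    ring

/-- Occurrences in a permutation of `Fin n`. -/
def O {n : ℕ} (π : Equiv.Perm (Fin n)) (i : ℕ) : Prop := i + 6 ≤ n ∧ Occ (ext π) i

/-! ### The product formula -/

/-- The type of data (set of values used first, order of the first part, order of the second). -/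
abbrev Data (a b : ℕ) : Type :=
  {s : Finset (Fin (a + b)) // s.card = a} × Equiv.Perm (Fin a) × Equiv.Perm (Fin b)

lemma compl_card {a b : ℕ} (s : {s : Finset (Fin (a + b)) // s.card = a}) :
    (s.1)ᶜ.card = b := by
  rw [Finset.card_compl, s.2, Fintype.card_fin]
  omega

/-- Gluing. -/
def glue {a b : ℕ} (d : Data a b) : Equiv.Perm (Fin (a + b)) :=
  finSumFinEquiv.symm.trans ((Equiv.sumCongr d.2.1 d.2.2).trans
    (finSumEquivOfFinset d.1.2 (compl_card d.1)))

lemma glue_castAdd {a b : ℕ} (d : Data a b) (i : Fin a) :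
    glue d (Fin.castAdd b i) = d.1.1.orderEmbOfFin d.1.2 (d.2.1 i) := by
  simp [glue]

lemma glue_natAdd {a b : ℕ} (d : Data a b) (i : Fin b) :
    glue d (Fin.natAdd a i) = (d.1.1)ᶜ.orderEmbOfFin (compl_card d.1) (d.2.2 i) := by
  simp [glue]

lemma glue_injective {a b : ℕ} : Function.Injective (glue (a := a) (b := b)) := by
  rintro ⟨⟨s, hs⟩, τ, ρ⟩ ⟨⟨s', hs'⟩, τ', ρ'⟩ h
  have hset : ∀ (t : Finset (Fin (a + b))) (ht : t.card = a) (τ : Equiv.Perm (Fin a))
      (ρ : Equiv.Perm (Fin b)) (x : Fin (a + b)),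
      x ∈ t ↔ ∃ i : Fin a, glue (⟨⟨t, ht⟩, τ, ρ⟩ : Data a b) (Fin.castAdd b i) = x := by
    intro t ht τ ρ x
    constructor
    · intro hx
      have : x ∈ Set.range (t.orderEmbOfFin ht) := by
        rw [Finset.range_orderEmbOfFin]; exact hx
      obtain ⟨j, hj⟩ := this
      refine ⟨τ.symm j, ?_⟩
      rw [glue_castAdd]
      simpa using hj
    · rintro ⟨i, rfl⟩
      rw [glue_castAdd]
      exact Finset.orderEmbOfFin_mem _ _ _
  have hss : s = s' := by
    ext x
    rw [hset s hs τ ρ x, hset s' hs' τ' ρ' x, h]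
  subst hss
  have hτ : τ = τ' := by
    ext i
    have h1 := congrArg (fun π => π (Fin.castAdd b i)) h
    simp only [glue_castAdd] at h1
    have h2 := (s.orderEmbOfFin hs).injective h1
    rw [h2]
  have hρ : ρ = ρ' := by
    ext i
    have h1 := congrArg (fun π => π (Fin.natAdd a i)) h
    simp only [glue_natAdd] at h1
    have h2 := (sᶜ.orderEmbOfFin _).injective h1
    rw [h2]
  rw [hτ, hρ]

lemma card_data (a b : ℕ) : Fintype.card (Data a b) = Fintype.card (Equiv.Perm (Fin (a + b))) := by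
  rw [Fintype.card_prod, Fintype.card_prod, Fintype.card_finset_len, Fintype.card_perm,
    Fintype.card_perm, Fintype.card_perm, Fintype.card_fin, Fintype.card_fin, Fintype.card_fin,
    ← mul_assoc]
  have := Nat.choose_mul_factorial_mul_factorial (n := a + b) (k := a) (by omega)
  rw [Nat.add_sub_cancel_left] at this
  exact this

lemma glue_bijective {a b : ℕ} : Function.Bijective (glue (a := a) (b := b)) :=
  (Fintype.bijective_iff_injective_and_card _).2 ⟨glue_injective, card_data a b⟩

lemma product_formula {a b : ℕ} (A : Equiv.Perm (Fin a) → ℤ) (B : Equiv.Perm (Fin b) → ℤ)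
    (f : Equiv.Perm (Fin (a + b)) → ℤ)
    (h : ∀ d : Data a b, f (glue d) = A d.2.1 * B d.2.2) :
    ∑ π, f π = ((a + b).choose a : ℤ) * (∑ τ, A τ) * (∑ ρ, B ρ) := by
  rw [← Equiv.sum_comp (Equiv.ofBijective _ (glue_bijective (a := a) (b := b))) f]
  simp only [Equiv.ofBijective_apply, h]
  rw [Fintype.sum_prod_type]
  simp only [Fintype.sum_prod_type]
  rw [Finset.sum_const, Finset.card_univ, Fintype.card_finset_len, Fintype.card_fin,
    nsmul_eq_mul, mul_assoc]
  congr 1
  rw [Finset.sum_mul]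
  refine Finset.sum_congr rfl fun τ _ => ?_
  rw [Finset.mul_sum]

lemma ext_glue_left {a b : ℕ} (d : Data a b) {p q : ℕ} (hp : p < a) (hq : q < a) :
    ext (glue d) p < ext (glue d) q ↔ ext d.2.1 p < ext d.2.1 q := by
  have h1 : glue d ⟨p, by omega⟩ = d.1.1.orderEmbOfFin d.1.2 (d.2.1 ⟨p, hp⟩) :=
    glue_castAdd d ⟨p, hp⟩
  have h2 : glue d ⟨q, by omega⟩ = d.1.1.orderEmbOfFin d.1.2 (d.2.1 ⟨q, hq⟩) :=
    glue_castAdd d ⟨q, hq⟩
  unfold ext
  rw [dif_pos (by omega : p < a + b), dif_pos (by omega : q < a + b), dif_pos hp, dif_pos hq,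
    h1, h2, ← Fin.lt_def, ← Fin.lt_def, OrderEmbedding.lt_iff_lt]

lemma ext_glue_right {a b : ℕ} (d : Data a b) {p q : ℕ} (hp : p < b) (hq : q < b) :
    ext (glue d) (a + p) < ext (glue d) (a + q) ↔ ext d.2.2 p < ext d.2.2 q := by
  have h1 : glue d ⟨a + p, by omega⟩ =
      (d.1.1)ᶜ.orderEmbOfFin (compl_card d.1) (d.2.2 ⟨p, hp⟩) :=
    glue_natAdd d ⟨p, hp⟩
  have h2 : glue d ⟨a + q, by omega⟩ =
      (d.1.1)ᶜ.orderEmbOfFin (compl_card d.1) (d.2.2 ⟨q, hq⟩) :=
    glue_natAdd d ⟨q, hq⟩
  unfold ext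
  rw [dif_pos (by omega : a + p < a + b), dif_pos (by omega : a + q < a + b), dif_pos hp,
    dif_pos hq, h1, h2, ← Fin.lt_def, ← Fin.lt_def, OrderEmbedding.lt_iff_lt]

lemma O_glue_left {a b : ℕ} (d : Data a b) {i : ℕ} (hi : i + 6 ≤ a) :
    O (glue d) i ↔ O d.2.1 i := by
  unfold O
  rw [occ_congr (x := ext (glue d)) (y := ext d.2.1) (i := i) (j := i)
    (fun p q hp hq => ext_glue_left d (by omega) (by omega))]
  constructor
  · rintro ⟨-, h⟩; exact ⟨hi, h⟩
  · rintro ⟨-, h⟩; exact ⟨by omega, h⟩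

lemma O_glue_right {a b : ℕ} (d : Data a b) {i : ℕ} :
    O (glue d) (a + i) ↔ O d.2.2 i := by
  unfold O
  by_cases hi : i + 6 ≤ b
  · rw [occ_congr (x := ext (glue d)) (y := ext d.2.2) (i := a + i) (j := i)
      (fun p q hp hq => by
        rw [add_assoc, add_assoc]
        exact ext_glue_right d (by omega) (by omega))]
    constructor
    · rintro ⟨-, h⟩; exact ⟨hi, h⟩
    · rintro ⟨-, h⟩; exact ⟨by omega, h⟩
  · constructor
    · rintro ⟨h, -⟩; omega
    · rintro ⟨h, -⟩; omega

/-- Signed cluster numbers. -/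
noncomputable def U (m : ℕ) : ℤ := ∑ τ : Equiv.Perm (Fin m), u (O τ) m

/-- Number of avoiders. -/
noncomputable def av (n : ℕ) : ℤ := ∑ ρ : Equiv.Perm (Fin n), e (O ρ) 0

lemma u_glue {a b : ℕ} (d : Data a b) : u (O (glue d)) a = u (O d.2.1) a := by
  unfold u
  by_cases h0 : a = 0
  · rw [if_pos h0, if_pos h0]
  · by_cases h1 : a = 1
    · rw [if_neg h0, if_neg h0, if_pos h1, if_pos h1]
    · rw [if_neg h0, if_neg h0, if_neg h1, if_neg h1]
      by_cases h6 : 6 ≤ a
      · rw [if_pos h6, if_pos h6,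
          w_congr (O (glue d)) (O d.2.1) (a - 6) (fun l hl => O_glue_left d (by omega))]
      · rw [if_neg h6, if_neg h6]

lemma e_glue {a b : ℕ} (d : Data a b) : e (O (glue d)) a = e (O d.2.2) 0 := by
  classical
  unfold e
  have : (∀ l, a ≤ l → ¬ O (glue d) l) ↔ (∀ l, 0 ≤ l → ¬ O d.2.2 l) := by
    constructor
    · intro h l _ hl
      exact h (a + l) (by omega) (O_glue_right d |>.2 hl)
    · intro h l hl hl2
      obtain ⟨l', rfl⟩ := Nat.exists_eq_add_of_le hl
      exact h l' (by omega) (O_glue_right d |>.1 hl2)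
  exact if_congr this rfl rfl

lemma sum_block (n m : ℕ) (hm : m ≤ n) :
    ∑ π : Equiv.Perm (Fin n), u (O π) m * e (O π) m = (n.choose m : ℤ) * U m * av (n - m) := by
  obtain ⟨b, rfl⟩ := Nat.exists_eq_add_of_le hm
  rw [Nat.add_sub_cancel_left]
  exact product_formula _ _ _ (fun d => by rw [u_glue, e_glue])

lemma recurrence (n : ℕ) :
    ∑ m ∈ range (n + 1), (n.choose m : ℤ) * U m * av (n - m) = if n = 0 then 1 else 0 := by
  have h1 : ∑ m ∈ range (n + 1), (n.choose m : ℤ) * U m * av (n - m)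
      = ∑ m ∈ range (n + 1), ∑ π : Equiv.Perm (Fin n), u (O π) m * e (O π) m := by
    refine Finset.sum_congr rfl fun m hm => ?_
    rw [Finset.mem_range] at hm
    rw [sum_block n m (by omega)]
  rw [h1, Finset.sum_comm]
  have h2 : ∀ π : Equiv.Perm (Fin n), ∑ m ∈ range (n + 1), u (O π) m * e (O π) m
      = if n = 0 then 1 else 0 := fun π => block_identity (O π) n (fun i hi => hi.1)
  simp only [h2]
  by_cases hn : n = 0
  · subst hn
    simp
  · simp [hn]

/-! ### Signs -/

lemma O_overlap {n : ℕ} (π : Equiv.Perm (Fin n)) (i d : ℕ) (h1 : O π i) (h2 : O π (i + d)) :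
    d ≠ 1 ∧ d ≠ 2 ∧ d ≠ 4 := occ_overlap (ext π) i d h1.2 h2.2

/-- Each summand in the recursion of `w` has the right sign. -/
lemma signed_term {n : ℕ} (π : Equiv.Perm (Fin n)) (i j : ℕ) (hji : j < i) (hij : i ≤ j + 5)
    (hi : O π i) :
    (-1 : ℤ) ^ i * w (O π) j = (-1) ^ (j + 1) * w (O π) j := by
  by_cases hj : O π j
  · obtain ⟨d, rfl⟩ := Nat.exists_eq_add_of_lt hji
    have := O_overlap π j (d + 1) hj (by rw [← add_assoc]; exact hi)
    have hd : d = 2 ∨ d = 4 := by omega
    rcases hd with rfl | rfl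
    · rw [show j + 2 + 1 = (j + 1) + 2 by ring, pow_add (-1 : ℤ) (j + 1) 2]; norm_num
    · rw [show j + 4 + 1 = (j + 1) + 4 by ring, pow_add (-1 : ℤ) (j + 1) 4]; norm_num
  · rw [w_of_not _ _ hj, mul_zero, mul_zero]

lemma signed_rec {n : ℕ} (π : Equiv.Perm (Fin n)) (i : ℕ) (h0 : i ≠ 0) (hi : O π i) :
    (-1 : ℤ) ^ (i + 1) * w (O π) i
      = ∑ j ∈ range i, if i ≤ j + 5 then (-1) ^ (j + 1) * w (O π) j else 0 := by
  rw [w_eq, if_pos hi, if_neg h0, pow_succ]
  have : (-1 : ℤ) ^ i * -1 * -(∑ j ∈ range i, if i ≤ j + 5 then w (O π) j else 0)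
      = (-1 : ℤ) ^ i * (∑ j ∈ range i, if i ≤ j + 5 then w (O π) j else 0) := by ring
  rw [this, Finset.mul_sum]
  refine Finset.sum_congr rfl fun j hj => ?_
  rw [Finset.mem_range] at hj
  by_cases h5 : i ≤ j + 5
  · rw [if_pos h5, if_pos h5, signed_term π i j hj h5 hi]
  · rw [if_neg h5, if_neg h5, mul_zero]

lemma signed_nonneg {n : ℕ} (π : Equiv.Perm (Fin n)) (i : ℕ) :
    0 ≤ (-1 : ℤ) ^ (i + 1) * w (O π) i := by
  induction i using Nat.strong_induction_on with
  | _ i ih =>
    by_cases hi : O π i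
    · by_cases h0 : i = 0
      · subst h0
        rw [w_eq, if_pos hi, if_pos rfl]
        norm_num
      · rw [signed_rec π i h0 hi]
        refine Finset.sum_nonneg fun j hj => ?_
        rw [Finset.mem_range] at hj
        by_cases h5 : i ≤ j + 5
        · rw [if_pos h5]; exact ih j hj
        · rw [if_neg h5]
    · rw [w_of_not _ _ hi, mul_zero]

lemma signed_step {n : ℕ} (π : Equiv.Perm (Fin n)) (i j : ℕ) (hji : j < i) (hij : i ≤ j + 5)
    (hi : O π i) :
    (-1 : ℤ) ^ (j + 1) * w (O π) j ≤ (-1 : ℤ) ^ (i + 1) * w (O π) i := by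
  rw [signed_rec π i (by omega) hi]
  have h := Finset.single_le_sum (s := range i)
    (f := fun j => if i ≤ j + 5 then (-1 : ℤ) ^ (j + 1) * w (O π) j else 0)
    (fun k _ => by
      by_cases h5 : i ≤ k + 5
      · rw [if_pos h5]; exact signed_nonneg π k
      · rw [if_neg h5]) (Finset.mem_range.2 hji)
  simp only [if_pos hij] at h
  exact h

/-- If `π` has occurrences at all positions `8 t` and `8 t + 3` for `t ≤ T` then the weight is at
least one. -/
lemma signed_ge_one {n : ℕ} (π : Equiv.Perm (Fin n)) (T : ℕ)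
    (h : ∀ t ≤ T, O π (8 * t) ∧ O π (8 * t + 3)) :
    ∀ t ≤ T, 1 ≤ (-1 : ℤ) ^ (8 * t + 3 + 1) * w (O π) (8 * t + 3) := by
  intro t
  induction t with
  | zero =>
    intro h0
    have h1 := signed_step π 3 0 (by norm_num) (by norm_num) (h 0 h0).2
    have h2 : (1 : ℤ) ≤ (-1) ^ (0 + 1) * w (O π) 0 := by
      rw [w_eq, if_pos (h 0 h0).1, if_pos rfl]; norm_num
    exact h2.trans h1
  | succ t ih =>
    intro ht
    have h1 := ih (by omega)
    have h2 := signed_step π (8 * (t + 1)) (8 * t + 3) (by omega) (by omega) (h (t + 1) ht).1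
    have h3 := signed_step π (8 * (t + 1) + 3) (8 * (t + 1)) (by omega) (by omega)
      (h (t + 1) ht).2
    exact (h1.trans h2).trans h3

/-! ### Many permutations respecting a level function -/

/-- Permutations increasing with respect to a level function. -/
def Resp {n : ℕ} (L : Fin n → Fin 7) (π : Equiv.Perm (Fin n)) : Prop :=
  ∀ p q, L p < L q → π p < π q

lemma card_resp {n : ℕ} (L : Fin n → Fin 7) [DecidablePred (Resp L)] :
    n.factorial ≤ (univ.filter (Resp L)).card * 7 ^ n := by
  classical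
  have h1 := Finset.card_le_mul_card_image (f := fun g : Equiv.Perm (Fin n) => L ∘ g)
    (univ : Finset (Equiv.Perm (Fin n))) (univ.filter (Resp L)).card (by
      intro c hc
      rw [Finset.mem_image] at hc
      obtain ⟨g₀, -, rfl⟩ := hc
      refine Finset.card_le_card_of_injOn (fun g => (g₀.symm.trans g).trans (Tuple.sort L).symm) ?_ ?_
      · intro g hg
        rw [Finset.mem_coe, Finset.mem_filter] at hg
        rw [Finset.mem_coe, Finset.mem_filter]
        refine ⟨Finset.mem_univ _, ?_⟩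
        intro p q hpq
        by_contra hlt
        rw [not_lt] at hlt
        have hm := Tuple.monotone_sort L hlt
        simp only [Function.comp_apply, Equiv.trans_apply, Equiv.apply_symm_apply] at hm
        have hL : ∀ x, L (g (g₀.symm x)) = L x := by
          intro x
          have := congrFun hg.2 (g₀.symm x)
          simpa using this
        rw [hL, hL] at hm
        exact absurd hpq (not_lt.2 hm)
      · intro g _ g' _ hgg
        ext x
        have := congrArg (fun π => (Tuple.sort L) (π (g₀ x))) hgg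
        simpa using congrArg Fin.val this)
  rw [Finset.card_univ, Fintype.card_perm, Fintype.card_fin] at h1
  refine h1.trans (Nat.mul_le_mul_left _ ?_)
  calc (Finset.image (fun g : Equiv.Perm (Fin n) => L ∘ g) univ).card
      ≤ (univ : Finset (Fin n → Fin 7)).card := Finset.card_le_univ _
    _ = 7 ^ n := by simp

/-- The periodic level function. -/
def lev (p : ℕ) : Fin 7 :=
  if p % 8 = 0 then 2 else if p % 8 = 1 then 6 else if p % 8 = 2 then 4 else
  if p % 8 = 3 then 1 else if p % 8 = 4 then 5 else if p % 8 = 5 then 3 else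
  if p % 8 = 6 then 0 else 4

lemma resp_ext {n : ℕ} (π : Equiv.Perm (Fin n)) (h : Resp (fun p : Fin n => lev p) π) (p q : ℕ)
    (hp : p < n) (hq : q < n) (hpq : lev p < lev q) : ext π p < ext π q := by
  unfold ext
  rw [dif_pos hp, dif_pos hq]
  exact h ⟨p, hp⟩ ⟨q, hq⟩ hpq

lemma resp_O (T : ℕ) (π : Equiv.Perm (Fin (8 * T + 9)))
    (h : Resp (fun p : Fin (8 * T + 9) => lev p) π) :
    ∀ t ≤ T, O π (8 * t) ∧ O π (8 * t + 3) := by
  intro t ht
  have key : ∀ r s, r ≤ 8 → s ≤ 8 → lev (8 * t + r) < lev (8 * t + s) →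
      ext π (8 * t + r) < ext π (8 * t + s) := by
    intro r s hr hs hrs
    exact resp_ext π h _ _ (by omega) (by omega) hrs
  have l0 : lev (8 * t + 0) = 2 := by
    simp [lev]
  have l1 : lev (8 * t + 1) = 6 := by
    have : (8 * t + 1) % 8 = 1 := by omega
    simp [lev, this]
  have l2 : lev (8 * t + 2) = 4 := by
    have : (8 * t + 2) % 8 = 2 := by omega
    simp [lev, this]
  have l3 : lev (8 * t + 3) = 1 := by
    have : (8 * t + 3) % 8 = 3 := by omega
    simp [lev, this]
  have l4 : lev (8 * t + 4) = 5 := by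
    have : (8 * t + 4) % 8 = 4 := by omega
    simp [lev, this]
  have l5 : lev (8 * t + 5) = 3 := by
    have : (8 * t + 5) % 8 = 5 := by omega
    simp [lev, this]
  have l6 : lev (8 * t + 6) = 0 := by
    have : (8 * t + 6) % 8 = 6 := by omega
    simp [lev, this]
  have l7 : lev (8 * t + 7) = 4 := by
    have : (8 * t + 7) % 8 = 7 := by omega
    simp [lev, this]
  have l8 : lev (8 * t + 8) = 2 := by
    have : (8 * t + 8) % 8 = 0 := by omega
    simp [lev, this]
  refine ⟨⟨by omega, ?_, ?_, ?_, ?_, ?_⟩, ⟨by omega, ?_, ?_, ?_, ?_, ?_⟩⟩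
  · exact key 3 0 (by norm_num) (by norm_num) (by rw [l3, l0]; decide)
  · exact key 0 5 (by norm_num) (by norm_num) (by rw [l0, l5]; decide)
  · exact key 5 2 (by norm_num) (by norm_num) (by rw [l5, l2]; decide)
  · exact key 2 4 (by norm_num) (by norm_num) (by rw [l2, l4]; decide)
  · exact key 4 1 (by norm_num) (by norm_num) (by rw [l4, l1]; decide)
  · exact key 6 3 (by norm_num) (by norm_num) (by rw [l6, l3]; decide)
  · exact key 3 8 (by norm_num) (by norm_num) (by rw [l3, l8]; decide)
  · exact key 8 5 (by norm_num) (by norm_num) (by rw [l8, l5]; decide)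
  · exact key 5 7 (by norm_num) (by norm_num) (by rw [l5, l7]; decide)
  · exact key 7 4 (by norm_num) (by norm_num) (by rw [l7, l4]; decide)

/-- The signed cluster numbers do not decay super-exponentially (relative to `m!`). -/
lemma U_lower (T : ℕ) :
    ((8 * T + 9).factorial : ℤ) ≤ - U (8 * T + 9) * 7 ^ (8 * T + 9) := by
  classical
  have h1 : - U (8 * T + 9) = ∑ τ : Equiv.Perm (Fin (8 * T + 9)), w (O τ) (8 * T + 3) := by
    unfold U
    rw [← Finset.sum_neg_distrib]
    refine Finset.sum_congr rfl fun τ _ => ?_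
    unfold u
    rw [if_neg (by omega), if_neg (by omega), if_pos (by omega), neg_neg]
    rfl
  have hsign : ∀ τ : Equiv.Perm (Fin (8 * T + 9)),
      (-1 : ℤ) ^ (8 * T + 3 + 1) * w (O τ) (8 * T + 3) = w (O τ) (8 * T + 3) := by
    intro τ
    rw [show 8 * T + 3 + 1 = 2 * (4 * T + 2) by ring, pow_mul]
    norm_num
  have h2 : ((univ.filter (Resp (fun p : Fin (8 * T + 9) => lev p))).card : ℤ)
      ≤ ∑ τ : Equiv.Perm (Fin (8 * T + 9)), w (O τ) (8 * T + 3) := by
    calc ((univ.filter (Resp (fun p : Fin (8 * T + 9) => lev p))).card : ℤ)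
        = ∑ τ ∈ univ.filter (Resp (fun p : Fin (8 * T + 9) => lev p)), (1 : ℤ) := by simp
      _ ≤ ∑ τ ∈ univ.filter (Resp (fun p : Fin (8 * T + 9) => lev p)),
            w (O τ) (8 * T + 3) := by
          refine Finset.sum_le_sum fun τ hτ => ?_
          rw [Finset.mem_filter] at hτ
          have := signed_ge_one τ T (resp_O T τ hτ.2) T le_rfl
          rwa [hsign] at this
      _ ≤ ∑ τ : Equiv.Perm (Fin (8 * T + 9)), w (O τ) (8 * T + 3) := by
          refine Finset.sum_le_sum_of_subset_of_nonneg (Finset.filter_subset _ _)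
            fun τ _ _ => ?_
          have := signed_nonneg τ (8 * T + 3)
          rwa [hsign] at this
  have h3 := card_resp (fun p : Fin (8 * T + 9) => lev p)
  rw [h1]
  calc ((8 * T + 9).factorial : ℤ)
      ≤ ((univ.filter (Resp (fun p : Fin (8 * T + 9) => lev p))).card : ℤ) * 7 ^ (8 * T + 9) := by
        exact_mod_cast h3
    _ ≤ _ := by
        apply mul_le_mul_of_nonneg_right h2 (by positivity)


/-! ### Conclusion -/

lemma card_av (n : ℕ) :
    ((Nat.card {π : Equiv.Perm (Fin n) //
                ¬ ∃ i : ℕ, i + 6 ≤ n ∧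
                  ∀ a b : Fin 6,
                    (sigma a < sigma b ↔
                      (if h : i + (a : ℕ) < n then ((π ⟨i + (a : ℕ), h⟩ : Fin n) : ℕ) else 0) <
                      (if h : i + (b : ℕ) < n then ((π ⟨i + (b : ℕ), h⟩ : Fin n) : ℕ) else 0))} : ℕ)
      : ℤ) = av n := by
  classical
  rw [Nat.card_eq_fintype_card, Fintype.card_subtype, Finset.card_filter]
  unfold av
  push_cast
  refine Finset.sum_congr rfl fun π _ => ?_
  unfold e
  refine if_congr ?_ rfl rfl
  constructor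
  · intro h l _ hl
    exact h ⟨l, hl.1, (occ_iff (ext π) l).2 hl.2⟩
  · rintro h ⟨i, hi, hocc⟩
    exact h i (Nat.zero_le _) ⟨hi, (occ_iff (ext π) i).1 hocc⟩

lemma av_bound (n : ℕ) : ‖((av n : ℤ) : ℂ)‖ ≤ (n.factorial : ℝ) := by
  classical
  have h0 : 0 ≤ av n := by
    unfold av e
    exact Finset.sum_nonneg fun _ _ => by split_ifs <;> norm_num
  have h1 : av n ≤ (n.factorial : ℤ) := by
    unfold av
    calc ∑ ρ : Equiv.Perm (Fin n), e (O ρ) 0 ≤ ∑ ρ : Equiv.Perm (Fin n), (1 : ℤ) := by
          refine Finset.sum_le_sum fun ρ _ => ?_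
          unfold e
          split_ifs <;> norm_num
      _ = (n.factorial : ℤ) := by
          simp [Fintype.card_perm]
  rw [Complex.norm_intCast, abs_of_nonneg (by exact_mod_cast h0)]
  exact_mod_cast h1

lemma av_zero : av 0 = 1 := by
  classical
  unfold av e
  rw [Fintype.sum_eq_single (1 : Equiv.Perm (Fin 0))]
  · rw [if_pos]
    intro l _ h
    exact absurd h.1 (by omega)
  · intro x hx
    exact absurd (Subsingleton.elim x 1) hx

lemma coef_unique (a : ℕ → ℂ)
    (ha : ∀ n, ∑ i ∈ range (n + 1), (n.choose i : ℂ) * a i * ((av (n - i) : ℤ) : ℂ)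
      = if n = 0 then 1 else 0) (n : ℕ) : a n = ((U n : ℤ) : ℂ) := by
  induction n using Nat.strong_induction_on with
  | _ n ih =>
    have h1 := ha n
    have h2 : (∑ i ∈ range (n + 1), (n.choose i : ℂ) * ((U i : ℤ) : ℂ) * ((av (n - i) : ℤ) : ℂ))
        = if n = 0 then 1 else 0 := by
      have := recurrence n
      have h3 := congrArg (fun z : ℤ => (z : ℂ)) this
      push_cast at h3
      rw [h3]
    rw [Finset.sum_range_succ, Nat.choose_self, Nat.sub_self, av_zero] at h1 h2
    have h4 : ∑ i ∈ range n, (n.choose i : ℂ) * a i * ((av (n - i) : ℤ) : ℂ)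
        = ∑ i ∈ range n, (n.choose i : ℂ) * ((U i : ℤ) : ℂ) * ((av (n - i) : ℤ) : ℂ) := by
      refine Finset.sum_congr rfl fun i hi => ?_
      rw [Finset.mem_range] at hi
      rw [ih i hi]
    rw [h4] at h1
    have h5 := h1.trans h2.symm
    have h6 := add_left_cancel h5
    simpa using h6

/-- The negation of the preceding statement: For every permutation pattern σ of length at least 2, the reciprocal of the exponential generating function of permutations avoiding σ as a consecutive pattern extends to an entire function on ℂ. -/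
theorem result :
    ¬ (∀ k : ℕ, 2 ≤ k → ∀ σ : Equiv.Perm (Fin k),
      ∃ f : ℂ → ℂ, Differentiable ℂ f ∧
        ∀ᶠ z in nhds (0 : ℂ),
          f z * (∑' n : ℕ,
            ((Nat.card {π : Equiv.Perm (Fin n) //
                ¬ ∃ i : ℕ, i + k ≤ n ∧
                  ∀ a b : Fin k,
                    (σ a < σ b ↔
                      (if h : i + (a : ℕ) < n then ((π ⟨i + (a : ℕ), h⟩ : Fin n) : ℕ) else 0) <
                      (if h : i + (b : ℕ) < n then ((π ⟨i + (b : ℕ), h⟩ : Fin n) : ℕ) else 0))} : ℕ) : ℂ)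
              * z ^ n / ((Nat.factorial n : ℕ) : ℂ)) = 1) := by
  intro H
  obtain ⟨f, hf, hfF⟩ := H 6 (by norm_num) sigma
  set F : ℂ → ℂ := fun z => ∑' n : ℕ, ((av n : ℤ) : ℂ) * z ^ n / ((Nat.factorial n : ℕ) : ℂ)
    with hFdef
  have hcast : ∀ n : ℕ, (((Nat.card {π : Equiv.Perm (Fin n) //
                ¬ ∃ i : ℕ, i + 6 ≤ n ∧
                  ∀ a b : Fin 6,
                    (sigma a < sigma b ↔
                      (if h : i + (a : ℕ) < n then ((π ⟨i + (a : ℕ), h⟩ : Fin n) : ℕ) else 0) <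
                      (if h : i + (b : ℕ) < n then ((π ⟨i + (b : ℕ), h⟩ : Fin n) : ℕ) else 0))} : ℕ)
      : ℂ)) = ((av n : ℤ) : ℂ) := by
    intro n
    rw [← card_av n]
    push_cast
    rfl
  have hfF' : ∀ᶠ z in nhds (0 : ℂ), f z * F z = 1 := by
    filter_upwards [hfF] with z hz
    rw [← hz, hFdef]
    congr 1
    refine tsum_congr fun n => ?_
    rw [hcast n]
  obtain ⟨hFan, hFd⟩ := egf_analytic (fun n => ((av n : ℤ) : ℂ)) av_bound F (fun z => rfl)
  have hconv := conv_identity (fun n => ((av n : ℤ) : ℂ)) F f hFan hFd hf hfF'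
  have hcoef := coef_unique (fun n => iteratedDeriv n f 0) hconv
  obtain ⟨C, hC⟩ := cauchy_entire f hf 8 (by norm_num)
  -- the contradiction
  have hbig : ∀ T : ℕ, ((8 : ℝ) / 7) ^ (8 * T + 9) ≤ C := by
    intro T
    have h1 := hC (8 * T + 9)
    rw [hcoef (8 * T + 9), Complex.norm_intCast] at h1
    have h2 := U_lower T
    have h3 : ((8 * T + 9).factorial : ℝ) ≤ |((U (8 * T + 9) : ℤ) : ℝ)| * 7 ^ (8 * T + 9) := by
      have h4 : ((8 * T + 9).factorial : ℝ) ≤ (-(U (8 * T + 9) : ℤ) : ℝ) * 7 ^ (8 * T + 9) := by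
        exact_mod_cast h2
      exact h4.trans (mul_le_mul_of_nonneg_right (neg_le_abs _) (by positivity))
    have hfac : (0 : ℝ) < ((8 * T + 9).factorial : ℝ) := by
      exact_mod_cast Nat.factorial_pos _
    have h7 : (0 : ℝ) < 7 ^ (8 * T + 9) := by positivity
    rw [div_pow, div_le_iff₀ h7]
    have h5 : ((8 * T + 9).factorial : ℝ) * 8 ^ (8 * T + 9)
        ≤ ((8 * T + 9).factorial : ℝ) * (C * 7 ^ (8 * T + 9)) := by
      calc ((8 * T + 9).factorial : ℝ) * 8 ^ (8 * T + 9)
          ≤ (|((U (8 * T + 9) : ℤ) : ℝ)| * 7 ^ (8 * T + 9)) * 8 ^ (8 * T + 9) :=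
            mul_le_mul_of_nonneg_right h3 (by positivity)
        _ = (|((U (8 * T + 9) : ℤ) : ℝ)| * 8 ^ (8 * T + 9)) * 7 ^ (8 * T + 9) := by ring
        _ ≤ (C * ((8 * T + 9).factorial : ℝ)) * 7 ^ (8 * T + 9) :=
            mul_le_mul_of_nonneg_right h1 (by positivity)
        _ = _ := by ring
    exact le_of_mul_le_mul_left h5 hfac
  obtain ⟨k, hk⟩ := pow_unbounded_of_one_lt C (show (1 : ℝ) < 8 / 7 by norm_num)
  have h8 := hbig k
  have h9 : ((8 : ℝ) / 7) ^ k ≤ (8 / 7) ^ (8 * k + 9) :=
    pow_le_pow_right₀ (by norm_num) (by omega)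
  linarith

end Pool.Agent.S10346
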