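import Pool.Statements.S10767
import Pool.Agent.Lib.MP_ad4d1c_co_h48.ExMain

set_option autoImplicit false
open Pool Pool.MP_ad4d1c_co

namespace Pool.Agent.S10767

/-- For every n ≥ 1, the longest sequence of distinct subsets of an n-set that starts with ∅, has no term inside its predecessor, and has no term inside the union of two consecutive terms at least two steps earlier has length exactly 2^(n-1) + floor((n+1)/2). -/
theorem result :
    ∀ n : ℕ, 1 ≤ n →
      IsGreatest
        {s : ℕ | ∃ B : Fin s → Finset (Fin n),
          Function.Injective B ∧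
          (∀ i : Fin s, i.val = 0 → B i = ∅) ∧
          (∀ i j : Fin s, j.val = i.val + 1 → ¬ (B j ⊆ B i)) ∧
          (∀ i k j : Fin s, k.val = i.val + 1 → i.val + 2 ≤ j.val →
            ¬ (B j ⊆ B i ∪ B k))}
        (2 ^ (n - 1) + (n + 1) / 2) := by
  exact Pool.Agent.Lib.MP_ad4d1c_co_h51.final Pool.Agent.Lib.MP_ad4d1c_co_h48.Ex.good_all

end Pool.Agent.S10767
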