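import Pool.Statements.S10994
import Pool.Agent.Lib.MP_b75ab8_co_Sub.Count

set_option autoImplicit false
open Pool Pool.MP_b75ab8_co

namespace Pool.Agent.S10994

/-- For every `c > 1` the numbers `d · 2 ^ (128 (b + 1) ^ 2 * 4 ^ b) + 1` are eventually smaller than
`c ^ d`, for `d = 8 ^ b`. -/
theorem exists_small (c : ℝ) (hc : 1 < c) (D : ℕ) :
    ∃ b : ℕ, D ≤ 8 ^ b ∧
      (8 ^ b : ℝ) * 2 ^ (128 * (b + 1) ^ 2 * 4 ^ b) + 1 < c ^ (8 ^ b) := by
  have hlogc : 0 < Real.log c := Real.log_pos hc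
  have hlog2 : 0 < Real.log 2 := Real.log_pos (by norm_num)
  have ht : Filter.Tendsto (fun n : ℕ => (n : ℝ) ^ 2 / (2 : ℝ) ^ n) Filter.atTop (nhds 0) :=
    tendsto_pow_const_div_const_pow_of_one_lt 2 (by norm_num)
  have hev : ∀ᶠ n : ℕ in Filter.atTop, (n : ℝ) ^ 2 / (2 : ℝ) ^ n < Real.log c / (264 * Real.log 2) :=
    ht.eventually_lt_const (by positivity)
  obtain ⟨N, hN⟩ := Filter.eventually_atTop.1 hev
  set b := max N D with hb
  refine ⟨b, ?_, ?_⟩
  · calc D ≤ b := le_max_right _ _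
      _ ≤ 8 ^ b := (Nat.lt_pow_self (by norm_num)).le
  · have h1 := hN (b + 1) ((le_max_left _ _).trans (Nat.le_succ _))
    rw [div_lt_div_iff₀ (by positivity) (by positivity)] at h1
    have h2 : 132 * ((b : ℝ) + 1) ^ 2 * Real.log 2 < 2 ^ b * Real.log c := by
      push_cast at h1
      have h1' : (2 : ℝ) ^ (b + 1) = 2 * 2 ^ b := pow_succ' 2 b
      rw [h1'] at h1
      linarith
    have h3 : (8 ^ b : ℝ) * 2 ^ (128 * (b + 1) ^ 2 * 4 ^ b) + 1 ≤
        (2 : ℝ) ^ (132 * (b + 1) ^ 2 * 4 ^ b) := by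
      have h8 : (8 : ℝ) ^ b = 2 ^ (3 * b) := by rw [pow_mul]; norm_num
      have h5 : 3 * b + 1 ≤ 4 * (b + 1) ^ 2 * 4 ^ b := by
        calc 3 * b + 1 ≤ 4 * (b + 1) ^ 2 * 1 := by nlinarith
          _ ≤ _ := by
            gcongr
            exact Nat.one_le_pow _ _ (by norm_num)
      calc (8 ^ b : ℝ) * 2 ^ (128 * (b + 1) ^ 2 * 4 ^ b) + 1
          = (2 : ℝ) ^ (3 * b + 128 * (b + 1) ^ 2 * 4 ^ b) + 1 := by rw [h8, ← pow_add]
        _ ≤ (2 : ℝ) ^ (3 * b + 128 * (b + 1) ^ 2 * 4 ^ b) +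
            (2 : ℝ) ^ (3 * b + 128 * (b + 1) ^ 2 * 4 ^ b) := by
            gcongr
            exact one_le_pow₀ (by norm_num)
        _ = (2 : ℝ) ^ (3 * b + 1 + 128 * (b + 1) ^ 2 * 4 ^ b) := by
            rw [← two_mul, ← pow_succ']
            congr 1
            ring
        _ ≤ (2 : ℝ) ^ (4 * (b + 1) ^ 2 * 4 ^ b + 128 * (b + 1) ^ 2 * 4 ^ b) := by
            apply pow_le_pow_right₀ (by norm_num)
            omega
        _ = _ := by congr 1; ring
    refine h3.trans_lt ?_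
    rw [← Real.log_lt_log_iff (by positivity) (by positivity), Real.log_pow, Real.log_pow]
    push_cast
    have h6 : (8 : ℝ) ^ b = 2 ^ b * 4 ^ b := by rw [← mul_pow]; norm_num
    rw [h6]
    have h7 : (0 : ℝ) < 4 ^ b := by positivity
    calc 132 * ((b : ℝ) + 1) ^ 2 * 4 ^ b * Real.log 2
        = (132 * ((b : ℝ) + 1) ^ 2 * Real.log 2) * 4 ^ b := by ring
      _ < (2 ^ b * Real.log c) * 4 ^ b := mul_lt_mul_of_pos_right h2 h7
      _ = _ := by ring

/-- The negation of the preceding statement: There is c>1 such that for all large d and all large k, for all large n, every partition of [n]^d into nonempty boxes in which every axis-parallel line meets at least k boxes has at least c^d·k boxes. -/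
theorem result :
    ¬ (∃ c : ℝ, 1 < c ∧ ∃ D : ℕ, ∀ d : ℕ, D ≤ d → ∃ K : ℕ, ∀ k : ℕ, K ≤ k →
      ∃ N : ℕ, ∀ n : ℕ, N ≤ n →
        ∀ P : Finset (Fin d → Finset (Fin n)),
          (∀ B ∈ P, ∀ i : Fin d, (B i).Nonempty) →
          (∀ x : Fin d → Fin n, ∃! B, B ∈ P ∧ ∀ i : Fin d, x i ∈ B i) →
          (∀ i : Fin d, ∀ a : Fin d → Fin n,
              k ≤ (P.filter (fun B => ∃ t : Fin n, ∀ j : Fin d,
                    Function.update a i t j ∈ B j)).card) →
          c ^ d * (k : ℝ) ≤ (P.card : ℝ)) := by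
  rintro ⟨c, hc, D, h⟩
  obtain ⟨b, hbD, hb⟩ := exists_small c hc D
  obtain ⟨Ω, hfin, acc, hne, hacc, hcard⟩ := Pool.Agent.MP_b75ab8_co.Sub.exists_isLeader b
  set d : ℕ := 8 ^ b with hd
  obtain ⟨K, hK⟩ := h d hbD
  set k : ℕ := max (max K 1) (Fintype.card Ω ^ d) with hk
  obtain ⟨N, hN⟩ := hK k ((le_max_left _ _).trans (le_max_left _ _))
  have hkpos : 0 < k := Nat.lt_of_lt_of_le Nat.one_pos ((le_max_right K 1).trans (le_max_left _ _))
  obtain ⟨P, h1, h2, h3, h4⟩ := Pool.Agent.MP_b75ab8_co.Sub.exists_partition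
    (n := max N (Fintype.card Ω * k)) hne hacc hkpos (le_max_right _ _)
  have h5 := hN _ (le_max_left _ _) P h1 h2 h3
  have h6 : P.card ≤ (d * Fintype.card Ω + 1) * k := by
    calc P.card ≤ d * Fintype.card Ω * k + Fintype.card Ω ^ d := h4
      _ ≤ d * Fintype.card Ω * k + k := by
        gcongr
        exact le_max_right _ _
      _ = _ := by ring
  have h7 : ((d * Fintype.card Ω + 1 : ℕ) : ℝ) < c ^ d := by
    refine lt_of_le_of_lt ?_ hb
    have h8 : d * Fintype.card Ω + 1 ≤ 8 ^ b * 2 ^ (128 * (b + 1) ^ 2 * 4 ^ b) + 1 := by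
      rw [hd]
      gcongr
    exact_mod_cast h8
  have h9 : (P.card : ℝ) ≤ ((d * Fintype.card Ω + 1 : ℕ) : ℝ) * (k : ℝ) := by exact_mod_cast h6
  have hkpos' : (0 : ℝ) < k := by exact_mod_cast hkpos
  have h10 : ((d * Fintype.card Ω + 1 : ℕ) : ℝ) * (k : ℝ) < c ^ d * (k : ℝ) :=
    mul_lt_mul_of_pos_right h7 hkpos'
  linarith

end Pool.Agent.S10994
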