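import Pool.Statements.S11001
import Pool.Agent.Lib.MP_b7b3bc_co.Order

set_option autoImplicit false
open Pool Pool.MP_b7b3bc_co

namespace Pool.Agent.S11001

/-- There is a bijection f of the integers such that no positions i<j<k<l have values f(i),f(j),f(k),f(l) forming an arithmetic progression. -/
theorem result :
    ∃ f : ℤ → ℤ, Function.Bijective f ∧
      ∀ i j k l : ℤ, i < j → j < k → k < l →
        ¬ (f j - f i = f k - f j ∧ f k - f j = f l - f k) := by
  exact Pool.Agent.Lib.MP_b7b3bc_co.main

end Pool.Agent.S11001
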