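import Pool.Statements.S11378
import Pool.Agent.Lib.MP_c7e7f6_eps.Main

set_option autoImplicit false
open Pool Pool.MP_c7e7f6_co

namespace Pool.Agent.S11378

/-- The negation of the preceding statement: There exist 9 points in the plane, no three collinear and no four concyclic, and 8 reals f(0..7) such that exactly i+1 unordered pairs of the points are at distance f(i), for each i. -/
theorem result :
    ¬ (∃ S : Finset (EuclideanSpace ℝ (Fin 2)), S.card = 9 ∧
      (∀ a ∈ S, ∀ b ∈ S, ∀ c ∈ S, a ≠ b → a ≠ c → b ≠ c →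
        ¬ Collinear ℝ ({a, b, c} : Set (EuclideanSpace ℝ (Fin 2)))) ∧
      (∀ a ∈ S, ∀ b ∈ S, ∀ c ∈ S, ∀ d ∈ S,
        a ≠ b → a ≠ c → a ≠ d → b ≠ c → b ≠ d → c ≠ d →
        ¬ EuclideanGeometry.Concyclic ({a, b, c, d} : Set (EuclideanSpace ℝ (Fin 2)))) ∧
      ∃ f : Fin 8 → ℝ, ∀ i : Fin 8,
        (S.offDiag.filter (fun p => dist p.1 p.2 = f i)).card = 2 * (i.val + 1)) :=
  Pool.Agent.Lib.EPS9.final

end Pool.Agent.S11378
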