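import Pool.Statements.S12030

set_option autoImplicit false
open Pool Pool.MP_e2957e_co

namespace Pool.Agent.S12030

open Finset

/-- Every two-point prescription extends to a permutation. -/
lemma exists_perm {n : ℕ} (j l j' l' : Fin n) (hjl : j ≠ l) (hjl' : j' ≠ l') :
    ∃ π : Equiv.Perm (Fin n), π j = j' ∧ π l = l' := by
  refine ⟨Equiv.swap (Equiv.swap j j' l) l' * Equiv.swap j j', ?_, ?_⟩
  · have h1 : j' ≠ Equiv.swap j j' l := by
      intro h
      have : Equiv.swap j j' j = Equiv.swap j j' l := by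
        rw [Equiv.swap_apply_left]; exact h
      exact hjl ((Equiv.swap j j').injective this)
    rw [Equiv.Perm.mul_apply, Equiv.swap_apply_left, Equiv.swap_apply_of_ne_of_ne h1 hjl']
  · rw [Equiv.Perm.mul_apply, Equiv.swap_apply_left]

lemma card_one {n : ℕ} (i j : Fin n) :
    (univ.filter (fun σ : Equiv.Perm (Fin n) => σ i = j)).card = Nat.factorial (n - 1) := by
  have key : ∀ a : Fin n, (univ.filter (fun σ : Equiv.Perm (Fin n) => σ i = a)).card =
      (univ.filter (fun σ : Equiv.Perm (Fin n) => σ i = j)).card := by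
    intro a
    refine Finset.card_bij (fun σ _ => Equiv.swap a j * σ) ?_ ?_ ?_
    · intro σ hσ
      simp only [mem_filter, mem_univ, true_and] at hσ ⊢
      rw [Equiv.Perm.mul_apply, hσ, Equiv.swap_apply_left]
    · intro σ _ τ _ h
      exact mul_left_cancel h
    · intro τ hτ
      refine ⟨Equiv.swap a j * τ, ?_, ?_⟩
      · simp only [mem_filter, mem_univ, true_and] at hτ ⊢
        rw [Equiv.Perm.mul_apply, hτ, Equiv.swap_apply_right]
      · rw [← mul_assoc, Equiv.swap_mul_self, one_mul]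
  have hsum := Finset.card_eq_sum_card_fiberwise
    (s := (univ : Finset (Equiv.Perm (Fin n)))) (t := (univ : Finset (Fin n)))
    (f := fun σ => σ i) (fun _ _ => by simp)
  rw [Finset.sum_congr rfl (fun a _ => key a)] at hsum
  rw [Finset.card_univ, Fintype.card_perm, Fintype.card_fin, Finset.sum_const,
    Finset.card_univ, Fintype.card_fin, smul_eq_mul] at hsum
  obtain ⟨m, rfl⟩ : ∃ m, n = m + 1 := ⟨n - 1, by have := i.pos; omega⟩
  rw [Nat.factorial_succ] at hsum
  have := Nat.eq_of_mul_eq_mul_left (Nat.succ_pos m) hsum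
  simpa using this.symm

lemma card_two {n : ℕ} (i k j l : Fin n) (hik : i ≠ k) (hjl : j ≠ l) :
    (univ.filter (fun σ : Equiv.Perm (Fin n) => σ i = j ∧ σ k = l)).card
      = Nat.factorial (n - 2) := by
  have key : ∀ a ∈ (univ : Finset (Fin n)).offDiag,
      (univ.filter (fun σ : Equiv.Perm (Fin n) => (σ i, σ k) = a)).card =
      (univ.filter (fun σ : Equiv.Perm (Fin n) => σ i = j ∧ σ k = l)).card := by
    rintro ⟨a, b⟩ hab
    have hab' : a ≠ b := by simpa using hab
    obtain ⟨π, h1, h2⟩ := exists_perm a b j l hab' hjl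
    refine Finset.card_bij (fun σ _ => π * σ) ?_ ?_ ?_
    · intro σ hσ
      simp only [mem_filter, mem_univ, true_and, Prod.mk.injEq] at hσ ⊢
      rw [Equiv.Perm.mul_apply, Equiv.Perm.mul_apply, hσ.1, hσ.2]
      exact ⟨h1, h2⟩
    · intro σ _ τ _ h
      exact mul_left_cancel h
    · intro τ hτ
      refine ⟨π⁻¹ * τ, ?_, ?_⟩
      · simp only [mem_filter, mem_univ, true_and, Prod.mk.injEq] at hτ ⊢
        rw [Equiv.Perm.mul_apply, Equiv.Perm.mul_apply, hτ.1, hτ.2, ← h1, ← h2]
        exact ⟨by simp, by simp⟩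
      · rw [← mul_assoc, mul_inv_cancel, one_mul]
  have hsum := Finset.card_eq_sum_card_fiberwise
    (s := (univ : Finset (Equiv.Perm (Fin n)))) (t := (univ : Finset (Fin n)).offDiag)
    (f := fun σ => (σ i, σ k)) (fun σ _ => by
      simp only [Finset.coe_offDiag, Set.mem_offDiag, coe_univ, Set.mem_univ, true_and]
      exact fun h => hik (σ.injective h))
  rw [Finset.sum_congr rfl key] at hsum
  rw [Finset.card_univ, Fintype.card_perm, Fintype.card_fin, Finset.sum_const,
    Finset.offDiag_card, Finset.card_univ, Fintype.card_fin, smul_eq_mul] at hsum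
  obtain ⟨m, rfl⟩ : ∃ m, n = m + 2 := by
    refine ⟨n - 2, ?_⟩
    have h1 := i.isLt
    have h2 := k.isLt
    have h3 : (i : ℕ) ≠ k := fun h => hik (Fin.ext h)
    omega
  rw [Nat.factorial_succ, Nat.factorial_succ] at hsum
  have e : (m + 2) * (m + 2) - (m + 2) = (m + 1 + 1) * (m + 1) := by
    rw [Nat.sub_eq_iff_eq_add (by nlinarith)]; ring
  rw [e, ← mul_assoc] at hsum
  have := Nat.eq_of_mul_eq_mul_left (by positivity) hsum
  simpa using this.symm

/-- The complement of the example. -/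
def Dset (m : ℕ) : Finset (Equiv.Perm (Fin (m + 3))) :=
  univ.filter (fun σ => σ 0 = 0 ∨ σ 1 = 1 ∨ (σ 0 = 1 ∧ σ 1 = 0))

/-- The example. -/
def Aset (m : ℕ) : Finset (Equiv.Perm (Fin (m + 3))) :=
  univ.filter (fun σ => ¬ (σ 0 = 0 ∨ σ 1 = 1 ∨ (σ 0 = 1 ∧ σ 1 = 0)))

lemma card_D (m : ℕ) : (Dset m).card = 2 * Nat.factorial (m + 2) := by
  have h01 : (0 : Fin (m + 3)) ≠ 1 := by
    intro h
    have := congrArg Fin.val h
    simp at this
  have e1 := card_one (0 : Fin (m + 3)) 0
  have e2 := card_one (1 : Fin (m + 3)) 1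
  have e3 := card_two (0 : Fin (m + 3)) 1 0 1 h01 h01
  have e4 := card_two (0 : Fin (m + 3)) 1 1 0 h01 h01.symm
  have u1 : (univ.filter (fun σ : Equiv.Perm (Fin (m + 3)) => σ 0 = 0 ∨ σ 1 = 1)).card
      + Nat.factorial (m + 3 - 2) = Nat.factorial (m + 3 - 1) + Nat.factorial (m + 3 - 1) := by
    rw [← e3, filter_or, filter_and, card_union_add_card_inter, e1, e2]
  have u2 : Dset m = (univ.filter (fun σ : Equiv.Perm (Fin (m + 3)) => σ 0 = 0 ∨ σ 1 = 1)) ∪
      (univ.filter (fun σ : Equiv.Perm (Fin (m + 3)) => σ 0 = 1 ∧ σ 1 = 0)) := by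
    ext σ
    simp only [Dset, mem_filter, mem_univ, true_and, mem_union, or_assoc]
  rw [u2, card_union_of_disjoint, e4]
  · have : m + 3 - 1 = m + 2 := rfl
    rw [this] at u1
    omega
  · rw [Finset.disjoint_left]
    intro σ h1 h2
    simp only [mem_filter, mem_univ, true_and] at h1 h2
    rcases h1 with h1 | h1
    · exact h01 (h1.symm.trans h2.1)
    · exact h01 (h2.2.symm.trans h1)

lemma card_A (m : ℕ) : (Aset m).card = (m + 1) * Nat.factorial (m + 2) := by
  have h := Finset.card_filter_add_card_filter_not (s := (univ : Finset (Equiv.Perm (Fin (m + 3)))))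
    (fun σ => σ 0 = 0 ∨ σ 1 = 1 ∨ (σ 0 = 1 ∧ σ 1 = 0))
  have hD := card_D m
  unfold Dset at hD
  unfold Aset
  rw [hD, Finset.card_univ, Fintype.card_perm, Fintype.card_fin] at h
  have : Nat.factorial (m + 3) = (m + 3) * Nat.factorial (m + 2) := Nat.factorial_succ (m + 2)
  rw [this] at h
  nlinarith

lemma boundary_pt (m : ℕ) (σ : Equiv.Perm (Fin (m + 3))) (hσ : σ ∈ Aset m) :
    ((univ.filter (fun p : Fin (m + 3) × Fin (m + 3) => p.1 < p.2)).filter
      (fun p => σ * Equiv.swap p.1 p.2 ∉ Aset m)).card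
      ≤ 2 + (if σ 0 = 1 then 1 else 0) + (if σ 1 = 0 then 1 else 0) := by
  have v0 : ((0 : Fin (m + 3)) : ℕ) = 0 := rfl
  have v1 : ((1 : Fin (m + 3)) : ℕ) = 1 := rfl
  have hA : ∀ τ : Equiv.Perm (Fin (m + 3)), τ ∈ Aset m ↔
      ¬ (τ 0 = 0 ∨ τ 1 = 1 ∨ (τ 0 = 1 ∧ τ 1 = 0)) := by
    intro τ
    simp only [Aset, mem_filter, mem_univ, true_and]
  obtain ⟨p, hp⟩ : ∃ p, σ p = 0 := ⟨σ.symm 0, by simp⟩
  obtain ⟨q, hq⟩ : ∃ q, σ q = 1 := ⟨σ.symm 1, by simp⟩
  have ep : ∀ x, σ x = 0 ↔ x = p := fun x => by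
    rw [← hp]; exact σ.injective.eq_iff
  have eq1 : ∀ x, σ x = 1 ↔ x = q := fun x => by
    rw [← hq]; exact σ.injective.eq_iff
  rw [hA] at hσ
  simp only [ep, eq1, hA, Equiv.Perm.mul_apply] at hσ ⊢
  have hpq : p ≠ q := by
    intro h
    have h2 := hp.symm.trans (by rw [h, hq])
    have := congrArg Fin.val h2
    rw [v0, v1] at this
    omega
  have main : ∀ T : Finset (Fin (m + 3) × Fin (m + 3)),
      (∀ i j : Fin (m + 3), i < j →
        (Equiv.swap i j 0 = p ∨ Equiv.swap i j 1 = q ∨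
          (Equiv.swap i j 0 = q ∧ Equiv.swap i j 1 = p)) → (i, j) ∈ T) →
      ((univ.filter (fun p : Fin (m + 3) × Fin (m + 3) => p.1 < p.2)).filter
      (fun x => ¬¬ (Equiv.swap x.1 x.2 0 = p ∨ Equiv.swap x.1 x.2 1 = q ∨
          (Equiv.swap x.1 x.2 0 = q ∧ Equiv.swap x.1 x.2 1 = p)))).card ≤ T.card := by
    intro T hT
    apply Finset.card_le_card
    rintro ⟨i, j⟩ hx
    simp only [mem_filter, mem_univ, true_and, not_not] at hx
    exact hT i j hx.1 hx.2
  by_cases h0 : (0 : Fin (m + 3)) = q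
  · refine (main {(0, p), (0, 1), (1, p)} ?_).trans ?_
    · intro i j hij h
      simp only [Equiv.swap_apply_def] at h
      simp only [mem_insert, mem_singleton, Prod.mk.injEq]
      simp only [Fin.ext_iff, Fin.lt_def, v0, v1] at h hσ h0 hij hpq ⊢
      split_ifs at h <;> omega
    · rw [if_pos h0]
      exact (Finset.card_le_three).trans (by omega)
  · by_cases h1 : (1 : Fin (m + 3)) = p
    · refine (main {(0, 1), (1, q), (0, q)} ?_).trans ?_
      · intro i j hij h
        simp only [Equiv.swap_apply_def] at h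
        simp only [mem_insert, mem_singleton, Prod.mk.injEq]
        simp only [Fin.ext_iff, Fin.lt_def, v0, v1] at h hσ h0 h1 hij hpq ⊢
        split_ifs at h <;> omega
      · rw [if_pos h1]
        exact (Finset.card_le_three).trans (by omega)
    · refine (main {(0, p), (1, q)} ?_).trans ?_
      · intro i j hij h
        simp only [Equiv.swap_apply_def] at h
        simp only [mem_insert, mem_singleton, Prod.mk.injEq]
        simp only [Fin.ext_iff, Fin.lt_def, v0, v1] at h hσ h0 h1 hij hpq ⊢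
        split_ifs at h <;> omega
      · rw [if_neg h0, if_neg h1]
        exact (Finset.card_le_two).trans (by omega)

lemma boundary (m : ℕ) :
    ((Aset m ×ˢ (univ.filter (fun p : Fin (m + 3) × Fin (m + 3) => p.1 < p.2))).filter
      (fun x => x.1 * Equiv.swap x.2.1 x.2.2 ∉ Aset m)).card
      ≤ 2 * (Aset m).card + 2 * Nat.factorial (m + 2) := by
  have e1 := card_one (0 : Fin (m + 3)) 1
  have e2 := card_one (1 : Fin (m + 3)) 0
  rw [Finset.card_filter, Finset.sum_product]
  calc ∑ σ ∈ Aset m, ∑ p ∈ univ.filter (fun p : Fin (m + 3) × Fin (m + 3) => p.1 < p.2),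
        (if σ * Equiv.swap p.1 p.2 ∉ Aset m then 1 else 0)
      ≤ ∑ σ ∈ Aset m, (2 + (if σ 0 = 1 then 1 else 0) + (if σ 1 = 0 then 1 else 0)) := by
        apply Finset.sum_le_sum
        intro σ hσ
        have := boundary_pt m σ hσ
        rwa [Finset.card_filter] at this
    _ = 2 * (Aset m).card + (∑ σ ∈ Aset m, (if σ 0 = 1 then 1 else 0))
          + (∑ σ ∈ Aset m, (if σ 1 = 0 then 1 else 0)) := by
        rw [Finset.sum_add_distrib, Finset.sum_add_distrib, Finset.sum_const, smul_eq_mul,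
          mul_comm]
    _ ≤ 2 * (Aset m).card + (∑ σ : Equiv.Perm (Fin (m + 3)), (if σ 0 = 1 then 1 else 0))
          + (∑ σ : Equiv.Perm (Fin (m + 3)), (if σ 1 = 0 then 1 else 0)) := by
        gcongr <;> exact Finset.subset_univ _
    _ = 2 * (Aset m).card + 2 * Nat.factorial (m + 2) := by
        rw [← Finset.card_filter, ← Finset.card_filter, e1, e2]
        have : m + 3 - 1 = m + 2 := rfl
        rw [this]
        ring

/-- Every coset meets the complement of the example in at least `(n-2)!` elements. -/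
lemma coset_inter (m : ℕ) (i j : Fin (m + 3)) :
    Nat.factorial (m + 1) ≤ ((Dset m).filter (fun σ => σ i = j)).card := by
  have h01 : (0 : Fin (m + 3)) ≠ 1 := by
    intro h
    have := congrArg Fin.val h
    simp at this
  have hf : m + 3 - 2 = m + 1 := rfl
  have main : ∀ k l : Fin (m + 3), i ≠ k → j ≠ l →
      (∀ σ : Equiv.Perm (Fin (m + 3)), σ i = j → σ k = l →
        (σ 0 = 0 ∨ σ 1 = 1 ∨ (σ 0 = 1 ∧ σ 1 = 0))) →
      Nat.factorial (m + 1) ≤ ((Dset m).filter (fun σ => σ i = j)).card := by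
    intro k l hik hjl h
    have e := card_two i k j l hik hjl
    rw [hf] at e
    rw [← e]
    apply Finset.card_le_card
    intro σ hσ
    simp only [mem_filter, mem_univ, true_and] at hσ
    simp only [Dset, mem_filter, mem_univ, true_and]
    exact ⟨h σ hσ.1 hσ.2, hσ.1⟩
  by_cases hi : i = 0
  · by_cases hj : j = 1
    · exact main 1 0 (by rw [hi]; exact h01) (by rw [hj]; exact h01.symm)
        (fun σ h1 h2 => Or.inr (Or.inr ⟨by rw [← hi, h1, hj], h2⟩))
    · exact main 1 1 (by rw [hi]; exact h01) hj (fun σ _ h2 => Or.inr (Or.inl h2))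
  · by_cases hj : j = 0
    · by_cases hi1 : i = 1
      · exact main 0 1 (by rw [hi1]; exact h01.symm) (by rw [hj]; exact h01)
          (fun σ h1 h2 => Or.inr (Or.inr ⟨h2, by rw [← hi1, h1, hj]⟩))
      · exact main 1 1 hi1 (by rw [hj]; exact h01) (fun σ _ h2 => Or.inr (Or.inl h2))
    · exact main 0 0 hi hj (fun σ _ h2 => Or.inl h2)

/-- Every union of `n - 2` cosets is far from the example. -/
lemma far (m : ℕ) (P : Finset (Fin (m + 3) × Fin (m + 3))) (hP : P.card = m + 1) :
    (m + 1) * Nat.factorial (m + 1) ≤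
      (symmDiff (Aset m) (univ.filter (fun σ : Equiv.Perm (Fin (m + 3)) =>
        ∃ p ∈ P, σ p.1 = p.2))).card := by
  set B := univ.filter (fun σ : Equiv.Perm (Fin (m + 3)) => ∃ p ∈ P, σ p.1 = p.2) with hB
  -- total multiplicity
  have htot : ∑ σ : Equiv.Perm (Fin (m + 3)), (P.filter (fun p => σ p.1 = p.2)).card
      = (Aset m).card := by
    have h1 : ∀ σ : Equiv.Perm (Fin (m + 3)), (P.filter (fun p => σ p.1 = p.2)).card
        = ∑ p ∈ P, (if σ p.1 = p.2 then 1 else 0) := fun σ => Finset.card_filter _ _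
    simp_rw [h1]
    rw [Finset.sum_comm]
    have h2 : ∀ p ∈ P, ∑ σ : Equiv.Perm (Fin (m + 3)), (if σ p.1 = p.2 then 1 else 0)
        = Nat.factorial (m + 2) := by
      intro p _
      rw [← Finset.card_filter]
      exact card_one p.1 p.2
    rw [Finset.sum_congr rfl h2, Finset.sum_const, hP, smul_eq_mul, card_A]
  have hsplit : ∑ σ ∈ Aset m, (P.filter (fun p => σ p.1 = p.2)).card
      + ∑ σ ∈ Dset m, (P.filter (fun p => σ p.1 = p.2)).card = (Aset m).card := by
    rw [← htot]
    unfold Aset Dset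
    rw [add_comm]
    exact Finset.sum_filter_add_sum_filter_not _ _ _
  have hD : (m + 1) * Nat.factorial (m + 1) ≤
      ∑ σ ∈ Dset m, (P.filter (fun p => σ p.1 = p.2)).card := by
    have h1 : ∀ σ : Equiv.Perm (Fin (m + 3)), (P.filter (fun p => σ p.1 = p.2)).card
        = ∑ p ∈ P, (if σ p.1 = p.2 then 1 else 0) := fun σ => Finset.card_filter _ _
    simp_rw [h1]
    rw [Finset.sum_comm]
    calc (m + 1) * Nat.factorial (m + 1) = ∑ p ∈ P, Nat.factorial (m + 1) := by
          rw [Finset.sum_const, hP, smul_eq_mul]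
      _ ≤ _ := by
          apply Finset.sum_le_sum
          intro p _
          rw [← Finset.card_filter]
          exact coset_inter m p.1 p.2
  have hA : (Aset m ∩ B).card ≤ ∑ σ ∈ Aset m, (P.filter (fun p => σ p.1 = p.2)).card := by
    rw [Finset.card_eq_sum_ones]
    calc ∑ _σ ∈ Aset m ∩ B, 1 ≤ ∑ σ ∈ Aset m ∩ B, (P.filter (fun p => σ p.1 = p.2)).card := by
          apply Finset.sum_le_sum
          intro σ hσ
          rw [mem_inter, hB, mem_filter] at hσ
          obtain ⟨p, hp, hp2⟩ := hσ.2.2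
          exact Finset.card_pos.mpr ⟨p, mem_filter.mpr ⟨hp, hp2⟩⟩
      _ ≤ _ := Finset.sum_le_sum_of_subset Finset.inter_subset_left
  have hsd : (Aset m \ B).card ≤ (symmDiff (Aset m) B).card := by
    apply Finset.card_le_card
    intro σ hσ
    rw [Finset.mem_symmDiff]
    rw [mem_sdiff] at hσ
    exact Or.inl hσ
  have hc : (Aset m \ B).card + (Aset m ∩ B).card = (Aset m).card :=
    Finset.card_sdiff_add_card_inter _ _
  omega

/-- The negation of the preceding statement: There is an absolute C₁>0 such that any A⊂S_n of size c(n−1)! whose transposition-graph edge boundary is at most ∣A∣(n!−∣A∣)/(n−1)!+δn∣A∣ lies within symmetric difference C₁cδ(n−1)! of a union of c distinct 1-cosets {σ: σ(i)=j}. -/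
theorem result :
    ¬ (∃ C₁ : ℝ, 0 < C₁ ∧
      ∀ (n : ℕ), 1 ≤ n →
      ∀ (c : ℕ) (δ : ℝ), 0 ≤ δ →
      ∀ A : Finset (Equiv.Perm (Fin n)),
        A.card = c * Nat.factorial (n - 1) →
        ((((A ×ˢ (Finset.univ.filter (fun p : Fin n × Fin n => p.1 < p.2))).filter
            (fun x => x.1 * Equiv.swap x.2.1 x.2.2 ∉ A)).card : ℕ) : ℝ)
          ≤ (A.card : ℝ) * ((Nat.factorial n : ℝ) - (A.card : ℝ)) / (Nat.factorial (n - 1) : ℝ)
            + δ * (n : ℝ) * (A.card : ℝ) →
        ∃ P : Finset (Fin n × Fin n), P.card = c ∧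
          ((symmDiff A (Finset.univ.filter (fun σ : Equiv.Perm (Fin n) => ∃ p ∈ P, σ p.1 = p.2))).card : ℝ)
            ≤ C₁ * (c : ℝ) * δ * (Nat.factorial (n - 1) : ℝ)) := by
  rintro ⟨C, hC, h⟩
  obtain ⟨m, hm⟩ := exists_nat_gt (2 * C)
  have hn1 : m + 3 - 1 = m + 2 := rfl
  have hA := card_A m
  have hb := boundary m
  have hfpos : (0 : ℝ) < (Nat.factorial (m + 2) : ℝ) := by
    exact_mod_cast Nat.factorial_pos (m + 2)
  have hfpos1 : (0 : ℝ) < (Nat.factorial (m + 1) : ℝ) := by
    exact_mod_cast Nat.factorial_pos (m + 1)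
  have hf3 : (Nat.factorial (m + 3) : ℝ) = ((m : ℝ) + 3) * (Nat.factorial (m + 2) : ℝ) := by
    rw [Nat.factorial_succ]; push_cast; ring
  have hf2 : (Nat.factorial (m + 2) : ℝ) = ((m : ℝ) + 2) * (Nat.factorial (m + 1) : ℝ) := by
    rw [Nat.factorial_succ]; push_cast; ring
  have hm0 : (0 : ℝ) ≤ (m : ℝ) := Nat.cast_nonneg m
  have hAr : ((Aset m).card : ℝ) = ((m : ℝ) + 1) * (Nat.factorial (m + 2) : ℝ) := by
    rw [hA]; push_cast; ring
  have := h (m + 3) (by omega) (m + 1) (2 / (((m : ℝ) + 3) * ((m : ℝ) + 1))) (by positivity)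
    (Aset m) (by rw [hn1]; exact hA) ?_
  · obtain ⟨P, hP, hle⟩ := this
    have hfar := far m P hP
    have hfar' : (((m : ℝ) + 1) * (Nat.factorial (m + 1) : ℝ)) ≤
      ((symmDiff (Aset m) (univ.filter (fun σ : Equiv.Perm (Fin (m + 3)) =>
        ∃ p ∈ P, σ p.1 = p.2))).card : ℝ) := by
      exact_mod_cast hfar
    have hle' := hfar'.trans hle
    rw [hn1, hf2] at hle'
    push_cast at hle'
    have e : C * ((m : ℝ) + 1) * (2 / (((m : ℝ) + 3) * ((m : ℝ) + 1))) *
        (((m : ℝ) + 2) * (Nat.factorial (m + 1) : ℝ)) =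
        (2 * C * ((m : ℝ) + 2) / ((m : ℝ) + 3)) * (Nat.factorial (m + 1) : ℝ) := by
      field_simp
    rw [e] at hle'
    have h3 := le_of_mul_le_mul_right hle' hfpos1
    rw [le_div_iff₀ (by positivity)] at h3
    nlinarith
  · have hb' : ((((Aset m ×ˢ (Finset.univ.filter
          (fun p : Fin (m + 3) × Fin (m + 3) => p.1 < p.2))).filter
            (fun x => x.1 * Equiv.swap x.2.1 x.2.2 ∉ Aset m)).card : ℕ) : ℝ) ≤
          2 * ((Aset m).card : ℝ) + 2 * (Nat.factorial (m + 2) : ℝ) := by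
      exact_mod_cast hb
    refine hb'.trans (le_of_eq ?_)
    rw [hn1, hf3, hAr]
    push_cast
    field_simp
    ring

end Pool.Agent.S12030
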