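import Pool.Statements.S12454
import Pool.Agent.Lib.MP_f6f4b2_co_Neg.Main

set_option autoImplicit false
open Pool Pool.MP_f6f4b2_co

namespace Pool.Agent.S12454

/-- The negation of the preceding statement: For every c>0 and all large n, any linear 3-uniform hypergraph on n vertices with at least cn^2 edges has a nonempty set of edges spanning at most 9 vertices, each lying in at least 2 of those edges. -/
theorem result :
    ¬ (∀ c : ℝ, 0 < c → ∃ N : ℕ, ∀ n : ℕ, N ≤ n →
      ∀ H : Finset (Finset (Fin n)),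
        (∀ e ∈ H, e.card = 3) →
        (∀ e ∈ H, ∀ f ∈ H, e ≠ f → (e ∩ f).card ≤ 1) →
        c * (n : ℝ) ^ 2 ≤ (H.card : ℝ) →
        ∃ F ⊆ H, F.Nonempty ∧ (F.biUnion id).card ≤ 9 ∧
          ∀ v ∈ F.biUnion id, 2 ≤ (F.filter (fun e => v ∈ e)).card) := by
  exact Pool.Agent.MP_f6f4b2_co_Neg.not_small_core

end Pool.Agent.S12454
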