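import Pool.Statements.S12487
import Pool.Agent.Lib.MP_f8d60a_co_h11.AllOne

set_option autoImplicit false
open N8b55e67f
open Filter Topology Fintype
open scoped ENNReal Pointwise
open Pool Pool.MP_f8d60a_co

namespace Pool.Agent.S12487

/-- For every r : ℕ, liminf_{n→∞} of min over F_2-subspaces V ≤ F_2^n with V + H(r) = F_2^n of ∣V∣·∣H(r)∣/2^n (in ℝ≥0∞) equals 1. -/
theorem result :
    ∀ r, f r = 1 := by
  exact Pool.Agent.Lib.MP_f8d60a_co_h11.all_one_holds

end Pool.Agent.S12487
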