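import Pool.Statements.S12684
import Pool.Agent.Lib.MP_05b8f3_gt.Surface

set_option autoImplicit false
open Pool Pool.MP_05b8f3_gt

namespace Pool.Agent.S12684

open Pool.Agent.Lib.MP_05b8f3_gt Metric Set

/-- The first spinor component on the disc: `theta_2 ^ 2` along `z ↦ z ^ 2`. -/
noncomputable def sa (z : ℂ) : ℂ := A (z ^ 2)

/-- The second spinor component on the disc. -/
noncomputable def sb (z : ℂ) : ℂ := B (z ^ 2)

theorem norm_sq_lt {z : ℂ} (hz : z ∈ ball (0 : ℂ) 1) : ‖z ^ 2‖ < 1 := by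
  rw [mem_ball_zero_iff] at hz
  rw [norm_pow]
  have := norm_nonneg z
  nlinarith

theorem sa_diff : DifferentiableOn ℂ sa (ball 0 1) := by
  intro z hz
  apply DifferentiableAt.differentiableWithinAt
  exact DifferentiableAt.comp z (differentiableAt_A (norm_sq_lt hz)) (by fun_prop)

theorem sb_diff : DifferentiableOn ℂ sb (ball 0 1) := by
  intro z hz
  apply DifferentiableAt.differentiableWithinAt
  exact DifferentiableAt.comp z (differentiableAt_B (norm_sq_lt hz)) (by fun_prop)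

/-- The negation of the preceding statement: For a complete conformal harmonic immersion of a planar domain into R^3 with nonconstant Gauss map, if the Gauss map has a critical point (a flat point), then it omits at most 3 points of the unit sphere. -/
theorem result :
    ¬ (∀ (U : Set ℂ) (X : ℂ → Fin 3 → ℝ),
      IsOpen U → IsConnected U → ContDiffOn ℝ 2 X U →
      (∀ z ∈ U, fderiv ℝ X z 1 ≠ 0 ∧
          ∑ i, (fderiv ℝ X z 1 i) ^ 2 = ∑ i, (fderiv ℝ X z Complex.I i) ^ 2 ∧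
          ∑ i, fderiv ℝ X z 1 i * fderiv ℝ X z Complex.I i = 0) →
      (∀ k : Fin 3, DifferentiableOn ℂ
          (fun z => ((fderiv ℝ X z 1 k : ℝ) : ℂ) - Complex.I * ((fderiv ℝ X z Complex.I k : ℝ) : ℂ)) U) →
      (∀ γ : ℝ → ℂ, ContDiffOn ℝ 1 γ (Set.Ico 0 1) → Set.MapsTo γ (Set.Ico 0 1) U →
          (∀ K : Set ℂ, IsCompact K → K ⊆ U → ∀ᶠ t in nhdsWithin (1 : ℝ) (Set.Iio 1), γ t ∉ K) →
          ∫⁻ t in Set.Ioo (0 : ℝ) 1,
            ENNReal.ofReal (Real.sqrt (∑ i, (fderiv ℝ X (γ t) (deriv γ t) i) ^ 2)) = ⊤) →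
      ∀ N : ℂ → Fin 3 → ℝ,
        (∀ z ∈ U, N z =
          (Real.sqrt (∑ i, (crossProduct (fderiv ℝ X z 1) (fderiv ℝ X z Complex.I) i) ^ 2))⁻¹ •
            crossProduct (fderiv ℝ X z 1) (fderiv ℝ X z Complex.I)) →
        (∃ z₁ ∈ U, ∃ z₂ ∈ U, N z₁ ≠ N z₂) →
        (∃ z₀ ∈ U, fderiv ℝ N z₀ = 0) →
        {v : Fin 3 → ℝ | ∑ i, v i ^ 2 = 1 ∧ ∀ z ∈ U, N z ≠ v}.encard ≤ 3) := by
  intro H
  -- primitives of the three Weierstrass forms
  have hP : ∀ k : Fin 3, ∃ F : ℂ → ℂ, ∀ z ∈ ball (0 : ℂ) 1, HasDerivAt F (phi sa sb k z) z := by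
    intro k
    have : DifferentiableOn ℂ (phi sa sb k) (ball 0 1) := by
      have ha := sa_diff
      have hb := sb_diff
      have e : phi sa sb k = fun z => ![(sb z ^ 2 - sa z ^ 2) / 2,
        Complex.I * (sb z ^ 2 + sa z ^ 2) / 2, sa z * sb z] k := rfl
      rw [e]
      fin_cases k
      · exact ((hb.pow 2).sub (ha.pow 2)).div_const 2
      · exact (((hb.pow 2).add (ha.pow 2)).const_mul Complex.I).div_const 2
      · exact ha.mul hb
    exact this.isExactOn_ball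
  choose F hF using hP
  set X : ℂ → Fin 3 → ℝ := fun z k => (F k z).re with hX
  -- the differential of X
  have hXd : ∀ z ∈ ball (0 : ℂ) 1, ∀ k, HasFDerivAt (fun z => (F k z).re)
      (Complex.reCLM.comp ((ContinuousLinearMap.toSpanSingleton ℂ (phi sa sb k z)).restrictScalars ℝ)) z := by
    intro z hz k
    have h1 := (hF k z hz).hasFDerivAt.restrictScalars ℝ
    have h2 := Complex.reCLM.hasFDerivAt.comp z h1
    exact h2
  have hXf : ∀ z ∈ ball (0 : ℂ) 1, ∀ v : ℂ, fderiv ℝ X z v = dX (sa z) (sb z) v := by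
    intro z hz v
    have h1 : HasFDerivAt X (ContinuousLinearMap.pi fun k =>
      (Complex.reCLM.comp ((ContinuousLinearMap.toSpanSingleton ℂ (phi sa sb k z)).restrictScalars ℝ))) z :=
      hasFDerivAt_pi.mpr (hXd z hz)
    rw [h1.fderiv]
    ext k
    simp only [ContinuousLinearMap.coe_pi', ContinuousLinearMap.coe_comp', Function.comp,
      ContinuousLinearMap.coe_restrictScalars', ContinuousLinearMap.toSpanSingleton_apply,
      Complex.reCLM_apply, smul_eq_mul, dX, phi]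
    fin_cases k
    · simp only [Fin.zero_eta, Matrix.cons_val_zero]
      rw [mul_comm]
    · simp only [Fin.mk_one, Matrix.cons_val_one, Matrix.cons_val_zero]
      rw [mul_comm]
    · simp only [Fin.reduceFinMk, Matrix.cons_val]
      rw [mul_comm]
  have hane : ∀ z ∈ ball (0 : ℂ) 1, sa z ≠ 0 := fun z hz => A_ne (norm_sq_lt hz)
  have hbne : ∀ z ∈ ball (0 : ℂ) 1, sb z ≠ 0 := fun z hz => B_ne (norm_sq_lt hz)
  have habne : ∀ z ∈ ball (0 : ℂ) 1, sa z ≠ sb z := fun z hz => A_ne_B (norm_sq_lt hz)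
  have habne' : ∀ z ∈ ball (0 : ℂ) 1, sa z ≠ - sb z := fun z hz => A_ne_neg_B (norm_sq_lt hz)
  -- the Gauss map
  set N : ℂ → Fin 3 → ℝ := fun z =>
    (Real.sqrt (∑ i, (crossProduct (fderiv ℝ X z 1) (fderiv ℝ X z Complex.I) i) ^ 2))⁻¹ •
            crossProduct (fderiv ℝ X z 1) (fderiv ℝ X z Complex.I) with hN
  have hNf : ∀ z ∈ ball (0 : ℂ) 1, N z = (ss (sa z) (sb z))⁻¹ • nn (sa z) (sb z) := by
    intro z hz
    simp only [hN, hXf z hz]
    exact gauss_eq _ _ (hane z hz)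
  have h0mem : (0 : ℂ) ∈ ball (0 : ℂ) 1 := mem_ball_self one_pos
  have hmain := H (ball 0 1) X isOpen_ball ((convex_ball _ _).isConnected ⟨0, h0mem⟩)
  have hC2 : ContDiffOn ℝ 2 X (ball 0 1) := by
    rw [contDiffOn_pi]
    intro k
    have h1 : DifferentiableOn ℂ (F k) (ball 0 1) := fun z hz =>
      (hF k z hz).differentiableAt.differentiableWithinAt
    have h2 : ContDiffOn ℂ 2 (F k) (ball 0 1) := h1.contDiffOn isOpen_ball
    have h3 : ContDiffOn ℝ 2 (F k) (ball 0 1) := h2.restrict_scalars ℝ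
    exact Complex.reCLM.contDiff.comp_contDiffOn h3
  have hconf : ∀ z ∈ ball (0 : ℂ) 1, fderiv ℝ X z 1 ≠ 0 ∧
          ∑ i, (fderiv ℝ X z 1 i) ^ 2 = ∑ i, (fderiv ℝ X z Complex.I i) ^ 2 ∧
          ∑ i, fderiv ℝ X z 1 i * fderiv ℝ X z Complex.I i = 0 := by
    intro z hz
    rw [hXf z hz, hXf z hz]
    refine ⟨?_, ?_, dX_orth _ _⟩
    · intro h0
      have h1 := dX_sq (sa z) (sb z) 1
      rw [h0] at h1
      simp only [Pi.zero_apply, norm_one, mul_one] at h1
      have h2 : 0 < ‖sa z‖ := norm_pos_iff.mpr (hane z hz)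
      have h3 : 0 < ((1 / 2) * (‖sa z‖ ^ 2 + ‖sb z‖ ^ 2)) ^ 2 := by positivity
      rw [← h1] at h3
      simp at h3
    · rw [dX_sq, dX_sq, norm_one, Complex.norm_I]
  have hhol : ∀ k : Fin 3, DifferentiableOn ℂ
          (fun z => ((fderiv ℝ X z 1 k : ℝ) : ℂ) - Complex.I * ((fderiv ℝ X z Complex.I k : ℝ) : ℂ))
          (ball 0 1) := by
    intro k
    have ha := sa_diff
    have hb := sb_diff
    have hd : DifferentiableOn ℂ (phi sa sb k) (ball 0 1) := by
      have e : phi sa sb k = fun z => ![(sb z ^ 2 - sa z ^ 2) / 2,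
        Complex.I * (sb z ^ 2 + sa z ^ 2) / 2, sa z * sb z] k := rfl
      rw [e]
      fin_cases k
      · exact ((hb.pow 2).sub (ha.pow 2)).div_const 2
      · exact (((hb.pow 2).add (ha.pow 2)).const_mul Complex.I).div_const 2
      · exact ha.mul hb
    refine hd.congr ?_
    intro z hz
    simp only [hXf z hz]
    have hre : ∀ w : ℂ, (((w * 1).re : ℝ) : ℂ) - Complex.I * (((w * Complex.I).re : ℝ) : ℂ) = w := by
      intro w
      apply Complex.ext <;> simp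
    fin_cases k
    · simp only [dX, phi, Fin.zero_eta, Matrix.cons_val_zero]
      exact hre _
    · simp only [dX, phi, Fin.mk_one, Matrix.cons_val_one, Matrix.cons_val_zero]
      exact hre _
    · simp only [dX, phi, Fin.reduceFinMk, Matrix.cons_val]
      exact hre _
  have hcomp : ∀ γ : ℝ → ℂ, ContDiffOn ℝ 1 γ (Set.Ico 0 1) → Set.MapsTo γ (Set.Ico 0 1) (ball 0 1) →
          (∀ K : Set ℂ, IsCompact K → K ⊆ ball 0 1 →
            ∀ᶠ t in nhdsWithin (1 : ℝ) (Set.Iio 1), γ t ∉ K) →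
          ∫⁻ t in Set.Ioo (0 : ℝ) 1,
            ENNReal.ofReal (Real.sqrt (∑ i, (fderiv ℝ X (γ t) (deriv γ t) i) ^ 2)) = ⊤ := by
    intro γ hγ hm hK
    refine path_length (fun z => (1 / 2) * (‖sa z‖ ^ 2 + ‖sb z‖ ^ 2)) (3 / 512) (by norm_num)
      ?_ γ hγ hm hK _ ?_
    · intro z hz
      have h1 := AB_lower (norm_sq_lt hz)
      have hz1 : ‖z‖ < 1 := by rwa [mem_ball_zero_iff] at hz
      have hz0 := norm_nonneg z
      have h2 : 0 < 1 - ‖z‖ ^ 2 := by nlinarith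
      have h3 : 1 - ‖z ^ 2‖ ^ 2 = (1 - ‖z‖ ^ 2) * (1 + ‖z‖ ^ 2) := by
        rw [norm_pow]; ring
      have h4 : 0 < 1 - ‖z ^ 2‖ ^ 2 := by rw [h3]; positivity
      have h5 : 1 - ‖z ^ 2‖ ^ 2 ≤ 2 * (1 - ‖z‖ ^ 2) := by
        rw [h3]; nlinarith
      have h6 : (3 / 256) / (1 - ‖z‖ ^ 2) ≤ (3 / 128) / (1 - ‖z ^ 2‖ ^ 2) := by
        rw [div_le_div_iff₀ h2 h4]; nlinarith
      have h7 : (3 / 512) / (1 - ‖z‖ ^ 2) = (1 / 2) * ((3 / 256) / (1 - ‖z‖ ^ 2)) := by ring
      rw [h7]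
      have h8 : (3 / 256) / (1 - ‖z‖ ^ 2) ≤ ‖sa z‖ ^ 2 + ‖sb z‖ ^ 2 := h6.trans h1
      linarith
    · intro t ht
      have htm : γ t ∈ ball (0 : ℂ) 1 := hm ⟨ht.1.le, ht.2⟩
      rw [hXf _ htm, dX_sq, Real.sqrt_sq (by positivity)]
  have h1 := hmain hC2 hconf hhol hcomp N (fun z _ => rfl)
  -- non-constancy
  obtain ⟨z₁, hz₁⟩ : ∃ z : ℂ, z ^ 2 = 1 / (1 + 2 * Complex.I) :=
    IsAlgClosed.exists_pow_nat_eq _ (by norm_num)
  have hw : ‖(1 / (1 + 2 * Complex.I) : ℂ)‖ < 1 := by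
    rw [norm_div, norm_one, div_lt_one]
    · have : ‖(1 + 2 * Complex.I : ℂ)‖ ^ 2 = 5 := by
        rw [← Complex.normSq_eq_norm_sq, Complex.normSq_apply]
        simp; norm_num
      have h0 := norm_nonneg (1 + 2 * Complex.I : ℂ)
      nlinarith
    · rw [norm_pos_iff]
      intro h
      have := congrArg Complex.re h
      simp at this
  have hz₁m : z₁ ∈ ball (0 : ℂ) 1 := by
    rw [mem_ball_zero_iff]
    rw [← hz₁, norm_pow] at hw
    have := norm_nonneg z₁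
    nlinarith
  have h2 : ∃ z₁ ∈ ball (0 : ℂ) 1, ∃ z₂ ∈ ball (0 : ℂ) 1, N z₁ ≠ N z₂ := by
    refine ⟨0, h0mem, z₁, hz₁m, ?_⟩
    rw [hNf _ h0mem, hNf _ hz₁m]
    intro h
    have h3 := gauss_eq_imp (hane _ h0mem) (hane _ hz₁m) h
    apply ratio_nonconst
    simpa [sa, sb, hz₁] using h3
  have h3 : ∃ z₀ ∈ ball (0 : ℂ) 1, fderiv ℝ N z₀ = 0 := by
    refine ⟨0, h0mem, fderiv_even N ?_⟩
    intro z hz
    have hz' : -z ∈ ball (0 : ℂ) 1 := by simpa using hz
    rw [hNf _ hz, hNf _ hz']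
    simp [sa, sb]
  have h4 := h1 h2 h3
  -- four omitted values
  have h5 : ((({![0, 0, 1], ![0, 0, -1], ![1, 0, 0], ![-1, 0, 0]} : Finset (Fin 3 → ℝ))) :
      Set (Fin 3 → ℝ)) ⊆ {v : Fin 3 → ℝ | ∑ i, v i ^ 2 = 1 ∧ ∀ z ∈ ball (0 : ℂ) 1, N z ≠ v} := by
    intro v hv
    have hv' : v = ![0, 0, 1] ∨ v = ![0, 0, -1] ∨ v = ![1, 0, 0] ∨ v = ![-1, 0, 0] := by
      simpa using hv
    refine ⟨?_, ?_⟩
    · rcases hv' with rfl | rfl | rfl | rfl <;> simp [Fin.sum_univ_three]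
    · intro z hz
      rw [hNf z hz]
      exact gauss_ne (hane z hz) (hbne z hz) (habne z hz) (habne' z hz) hv'
  have h6 : ({![0, 0, 1], ![0, 0, -1], ![1, 0, 0], ![-1, 0, 0]} : Finset (Fin 3 → ℝ)).card = 4 := by
    have n12 : (![0, 0, 1] : Fin 3 → ℝ) ≠ ![0, 0, -1] := by
      intro h; have := congrFun h 2; simp at this; linarith
    have n13 : (![0, 0, 1] : Fin 3 → ℝ) ≠ ![1, 0, 0] := by
      intro h; have := congrFun h 0; simp at this
    have n14 : (![0, 0, 1] : Fin 3 → ℝ) ≠ ![-1, 0, 0] := by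
      intro h; have := congrFun h 0; simp at this
    have n23 : (![0, 0, -1] : Fin 3 → ℝ) ≠ ![1, 0, 0] := by
      intro h; have := congrFun h 0; simp at this
    have n24 : (![0, 0, -1] : Fin 3 → ℝ) ≠ ![-1, 0, 0] := by
      intro h; have := congrFun h 0; simp at this
    have n34 : (![1, 0, 0] : Fin 3 → ℝ) ≠ ![-1, 0, 0] := by
      intro h; have := congrFun h 0; simp at this; linarith
    rw [Finset.card_insert_of_notMem, Finset.card_insert_of_notMem, Finset.card_insert_of_notMem,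
      Finset.card_singleton]
    · simpa using n34
    · simp only [Finset.mem_insert, Finset.mem_singleton, not_or]; exact ⟨n23, n24⟩
    · simp only [Finset.mem_insert, Finset.mem_singleton, not_or]; exact ⟨n12, n13, n14⟩
  have h7 := (Set.encard_le_encard h5).trans h4
  rw [Set.encard_coe_eq_coe_finsetCard, h6] at h7
  norm_num at h7

end Pool.Agent.S12684
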