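import Pool.Statements.S13942
import Pool.Agent.Lib.MP_c9e52c_gt.Key

set_option autoImplicit false
open MeasureTheory
open Pool Pool.MP_c9e52c_gt

namespace Pool.Agent.S13942

/-- The negation of the preceding statement: For all m>1 and r>0, the greatest lower bound of the Sasaki volumes of smooth tangent vector fields of constant length r on the unit sphere S^{2m+1} equals c(m;r) times the area of S^{2m+1}. -/
theorem result :
    ¬ (∀ m : ℕ, 1 < m → ∀ r : ℝ, 0 < r →
      IsGLB
        {v : ℝ | ∃ X : EuclideanSpace ℝ (Fin (2 * m + 2)) → EuclideanSpace ℝ (Fin (2 * m + 2)),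
            ContDiff ℝ ((⊤ : ℕ∞) : WithTop ℕ∞) X ∧
            (∀ x ∈ Metric.sphere (0 : EuclideanSpace ℝ (Fin (2 * m + 2))) 1,
                inner ℝ x (X x) = 0 ∧ ‖X x‖ = r) ∧
            ∃ B : Metric.sphere (0 : EuclideanSpace ℝ (Fin (2 * m + 2))) 1 →
                (EuclideanSpace ℝ (Fin (2 * m + 2)) →L[ℝ] EuclideanSpace ℝ (Fin (2 * m + 2))),
              (∀ x : Metric.sphere (0 : EuclideanSpace ℝ (Fin (2 * m + 2))) 1,
                B x = (1 - (innerSL ℝ (x : EuclideanSpace ℝ (Fin (2 * m + 2)))).smulRight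
                          (x : EuclideanSpace ℝ (Fin (2 * m + 2))))
                      ∘L fderiv ℝ X (x : EuclideanSpace ℝ (Fin (2 * m + 2)))
                      ∘L (1 - (innerSL ℝ (x : EuclideanSpace ℝ (Fin (2 * m + 2)))).smulRight
                          (x : EuclideanSpace ℝ (Fin (2 * m + 2))))) ∧
              v = ∫ x : Metric.sphere (0 : EuclideanSpace ℝ (Fin (2 * m + 2))) 1,
                    Real.sqrt (LinearMap.det
                      (((1 + ContinuousLinearMap.adjoint (B x) ∘L B x :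
                          EuclideanSpace ℝ (Fin (2 * m + 2)) →L[ℝ] EuclideanSpace ℝ (Fin (2 * m + 2)))) :
                        EuclideanSpace ℝ (Fin (2 * m + 2)) →ₗ[ℝ] EuclideanSpace ℝ (Fin (2 * m + 2))))
                  ∂((volume : Measure (EuclideanSpace ℝ (Fin (2 * m + 2)))).toSphere)}
        ((∑ k ∈ Finset.range (m + 1),
            ((m.choose k : ℝ)) ^ 2 / (((2 * m).choose (2 * k) : ℕ) : ℝ) * r ^ (2 * k)) *
          ((volume : Measure (EuclideanSpace ℝ (Fin (2 * m + 2)))).toSphere Set.univ).toReal)) := by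
  intro hall
  have h := (hall 3 (by norm_num) (1 / 3) (by norm_num)).2
  have hsum : (∑ k ∈ Finset.range (3 + 1),
      (((3 : ℕ).choose k : ℝ)) ^ 2 / (((2 * 3).choose (2 * k) : ℕ) : ℝ) * (1 / 3 : ℝ) ^ (2 * k)) =
      784 / 729 := by
    simp only [Finset.sum_range_succ, Finset.sum_range_zero, Nat.choose]
    norm_num
  rw [hsum] at h
  have hfin : Module.finrank ℝ (EuclideanSpace ℝ (Fin (2 * 3 + 2))) = 8 := by simp
  have hS0 : 0 < ((volume : Measure (EuclideanSpace ℝ (Fin (2 * 3 + 2)))).toSphere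
      Set.univ).toReal := by
    have h1 := Pool.Agent.Lib.MP_c9e52c_gt.c0_mul (E := EuclideanSpace ℝ (Fin (2 * 3 + 2)))
    rcases (ENNReal.toReal_nonneg (a := (volume : Measure (EuclideanSpace ℝ
      (Fin (2 * 3 + 2)))).toSphere Set.univ)).lt_or_eq with h2 | h2
    · exact h2
    · exfalso
      have h3 : ((volume : Measure (EuclideanSpace ℝ (Fin (2 * 3 + 2)))).toSphere).real
          Set.univ = 0 := h2.symm
      rw [h3, mul_zero] at h1
      exact zero_ne_one h1
  have hlb : (784 / 729 + 1 / 10 ^ 12) * ((volume : Measure (EuclideanSpace ℝ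
      (Fin (2 * 3 + 2)))).toSphere Set.univ).toReal ≤ 784 / 729 * ((volume : Measure
      (EuclideanSpace ℝ (Fin (2 * 3 + 2)))).toSphere Set.univ).toReal := by
    apply h
    rintro v ⟨X, hX, hXs, B, hB, rfl⟩
    have hX2 : ContDiff ℝ 2 X := by exact_mod_cast contDiff_infty.1 hX 2
    have hG := Pool.Agent.Lib.MP_c9e52c_gt.isFld_ext X (1 / 3) (by norm_num) hX2
      (fun x hx => (hXs x (mem_sphere_zero_iff_norm.2 hx)).1)
      (fun x hx => (hXs x (mem_sphere_zero_iff_norm.2 hx)).2)
    refine (Pool.Agent.Lib.MP_c9e52c_gt.key hG hfin).trans (le_of_eq ?_)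
    congr 1
    ext x
    have hx : ‖(x : EuclideanSpace ℝ (Fin (2 * 3 + 2)))‖ = 1 := mem_sphere_zero_iff_norm.1 x.2
    have hBx := hB x
    unfold Pool.Agent.Lib.MP_c9e52c_gt.Wd
    rw [Pool.Agent.Lib.MP_c9e52c_gt.fderiv_ext X (1 / 3) (by norm_num) hX2 hx]
    have e1 : Pool.Agent.Lib.MP_c9e52c_gt.prj (x : EuclideanSpace ℝ (Fin (2 * 3 + 2))) *
        fderiv ℝ X (x : EuclideanSpace ℝ (Fin (2 * 3 + 2))) *
        Pool.Agent.Lib.MP_c9e52c_gt.prj (x : EuclideanSpace ℝ (Fin (2 * 3 + 2))) = B x := by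
      rw [hBx]; rfl
    rw [e1]
    rfl
  nlinarith

end Pool.Agent.S13942
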