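import Pool.Statements.S14078
import Pool.Agent.Lib.MP_dce2ef.Core

set_option autoImplicit false
open Pool Pool.MP_dce2ef_gt

namespace Pool.Agent.S14078

/-- The negation of the preceding statement: For n>1, every locally connected compact connected metric space of covering dimension n is homeomorphic to the inverse limit of a sequence of n-dimensional finite polyhedra whose bonding maps are continuous, surjective and have connected point-preimages. -/
theorem result :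
    ¬ (∀ (n : ℕ), 1 < n →
  ∀ (X : Type) [MetricSpace X] [CompactSpace X] [ConnectedSpace X] [LocallyConnectedSpace X],
    (∀ (k : ℕ) (U : Fin k → Set X), (∀ i, IsOpen (U i)) → (⋃ i, U i) = Set.univ →
      ∃ V : Fin k → Set X, (∀ i, IsOpen (V i)) ∧ (∀ i, V i ⊆ U i) ∧
        (⋃ i, V i) = Set.univ ∧ ∀ x : X, {i | x ∈ V i}.ncard ≤ n + 1) →
    ¬ (∀ (k : ℕ) (U : Fin k → Set X), (∀ i, IsOpen (U i)) → (⋃ i, U i) = Set.univ →
      ∃ V : Fin k → Set X, (∀ i, IsOpen (V i)) ∧ (∀ i, V i ⊆ U i) ∧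
        (⋃ i, V i) = Set.univ ∧ ∀ x : X, {i | x ∈ V i}.ncard ≤ n) →
    ∃ (m : ℕ → ℕ) (K : ∀ k : ℕ, Geometry.SimplicialComplex ℝ (EuclideanSpace ℝ (Fin (m k)))),
      (∀ k, (K k).faces.Finite) ∧
      (∀ k, ∀ s ∈ (K k).faces, s.card ≤ n + 1) ∧
      (∀ k, ∃ s ∈ (K k).faces, s.card = n + 1) ∧
      ∃ (f : ∀ k : ℕ, (K (k + 1)).space → (K k).space),
        (∀ k, Continuous (f k)) ∧
        (∀ k, Function.Surjective (f k)) ∧
        (∀ k (y : (K k).space), IsConnected ((f k) ⁻¹' {y})) ∧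
        Nonempty (X ≃ₜ {x : ∀ k : ℕ, (K k).space // ∀ k, f k (x (k + 1)) = x k})) := by
  intro H
  obtain ⟨m, K, hfin, -, hex, f, hfc, -, hfconn, ⟨h⟩⟩ :=
    H 2 (by norm_num) Pool.Agent.Lib.MP_dce2ef.X0
      (Pool.Agent.Lib.MP_dce2ef.dim_le_two _ Pool.Agent.Lib.MP_dce2ef.X0_isCompact)
      Pool.Agent.Lib.MP_dce2ef.X0_not_dim_le_one
  have hspace : ∀ k, (K k).space = ⋃₀ ((fun s : Finset (EuclideanSpace ℝ (Fin (m k))) =>
      convexHull ℝ (s : Set (EuclideanSpace ℝ (Fin (m k))))) '' (K k).faces) := by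
    intro k
    rw [Set.sUnion_image]
    rfl
  have hfinite : ∀ k, ((fun s : Finset (EuclideanSpace ℝ (Fin (m k))) =>
      convexHull ℝ (s : Set (EuclideanSpace ℝ (Fin (m k))))) '' (K k).faces).Finite :=
    fun k => (hfin k).image _
  have hconv : ∀ k, ∀ C ∈ ((fun s : Finset (EuclideanSpace ℝ (Fin (m k))) =>
      convexHull ℝ (s : Set (EuclideanSpace ℝ (Fin (m k))))) '' (K k).faces),
      IsCompact C ∧ Convex ℝ C := by
    rintro k _ ⟨s, -, rfl⟩
    exact ⟨s.finite_toSet.isCompact_convexHull ℝ, convex_convexHull ℝ _⟩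
  have hcompact : ∀ k, CompactSpace (K k).space := by
    intro k
    apply isCompact_iff_compactSpace.1
    rw [hspace k, Set.sUnion_eq_biUnion]
    exact (hfinite k).isCompact_biUnion (fun C hC => (hconv k C hC).1)
  have hne : ∀ k, Nonempty (K k).space := by
    intro k
    obtain ⟨s, hs, hcard⟩ := hex k
    have hsne : s.Nonempty := by
      rw [← Finset.card_pos]; omega
    obtain ⟨v, hv⟩ := hsne
    exact ⟨⟨v, Geometry.SimplicialComplex.subset_space hs hv⟩⟩
  obtain ⟨π, hπc, hπf, hπi⟩ := Pool.Agent.Lib.MP_dce2ef.projections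
    (P := fun k => (K k).space) f hfc hfconn h
  let a : Pool.Agent.Lib.MP_dce2ef.X0 :=
    ⟨Pool.Agent.Lib.MP_dce2ef.corner 0, Or.inr (Pool.Agent.Lib.MP_dce2ef.corner_mem_G 0)⟩
  let b : Pool.Agent.Lib.MP_dce2ef.X0 :=
    ⟨Pool.Agent.Lib.MP_dce2ef.corner 1, Or.inr (Pool.Agent.Lib.MP_dce2ef.corner_mem_G 1)⟩
  have hab : a = b := hπi a b (fun k =>
    Pool.Agent.Lib.MP_dce2ef.constant_on_gasket _ (hfinite k) (hconv k) _ (hspace k) (π k) (hπc k)
      (hπf k) a b (Pool.Agent.Lib.MP_dce2ef.corner_mem_G 0)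
      (Pool.Agent.Lib.MP_dce2ef.corner_mem_G 1))
  have h1 : Pool.Agent.Lib.MP_dce2ef.corner 0 = Pool.Agent.Lib.MP_dce2ef.corner 1 :=
    congrArg Subtype.val hab
  have h2 := congrArg Prod.fst h1
  simp [Pool.Agent.Lib.MP_dce2ef.corner] at h2

end Pool.Agent.S14078
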