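import Pool.Statements.S14259
import Pool.Agent.Lib.MP_f7db8a.Main
import Pool.Agent.Lib.MP_f7db8a.HomThreeG
import Pool.Agent.Lib.MP_f7db8a.QH

set_option autoImplicit false
open Pool Pool.MP_f7db8a_gt

namespace Pool.Agent.S14259

/-- For n ≥ 3 and 2 ≤ k ≤ n−1, if two star bodies in R^n have homothetic sections by every k-dimensional linear subspace (scale and shift may depend on the subspace), then the two bodies are themselves homothetic. -/
theorem result :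
    ∀ n : ℕ, 3 ≤ n → ∀ k : ℕ, 2 ≤ k → k ≤ n - 1 →
    ∀ K L : Set (EuclideanSpace ℝ (Fin n)),
      (IsCompact K ∧ StarConvex ℝ (0 : EuclideanSpace ℝ (Fin n)) K ∧
        (∀ u ∈ Metric.sphere (0 : EuclideanSpace ℝ (Fin n)) 1,
          0 < sSup {t : ℝ | 0 ≤ t ∧ t • u ∈ K}) ∧
        ContinuousOn (fun u : EuclideanSpace ℝ (Fin n) => sSup {t : ℝ | 0 ≤ t ∧ t • u ∈ K})
          (Metric.sphere (0 : EuclideanSpace ℝ (Fin n)) 1)) →
      (IsCompact L ∧ StarConvex ℝ (0 : EuclideanSpace ℝ (Fin n)) L ∧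
        (∀ u ∈ Metric.sphere (0 : EuclideanSpace ℝ (Fin n)) 1,
          0 < sSup {t : ℝ | 0 ≤ t ∧ t • u ∈ L}) ∧
        ContinuousOn (fun u : EuclideanSpace ℝ (Fin n) => sSup {t : ℝ | 0 ≤ t ∧ t • u ∈ L})
          (Metric.sphere (0 : EuclideanSpace ℝ (Fin n)) 1)) →
      (∀ S : Submodule ℝ (EuclideanSpace ℝ (Fin n)), Module.finrank ℝ S = k →
        ∃ c : ℝ, 0 < c ∧ ∃ x : EuclideanSpace ℝ (Fin n),
          L ∩ (S : Set (EuclideanSpace ℝ (Fin n))) =
            (fun y : EuclideanSpace ℝ (Fin n) => c • y + x) ''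
              (K ∩ (S : Set (EuclideanSpace ℝ (Fin n))))) →
      ∃ c : ℝ, 0 < c ∧ ∃ x : EuclideanSpace ℝ (Fin n),
        L = (fun y : EuclideanSpace ℝ (Fin n) => c • y + x) '' K := by
  intro n hn k hk hkn K L hK hL h
  exact Pool.Agent.Lib.MP_f7db8a.Hom.all_of_three_two_gen
    (fun K L hK hL h => Pool.Agent.Lib.MP_f7db8a.Q.q1_three
      (Pool.Agent.Lib.MP_f7db8a.IsStarBody.sb (by norm_num) hK)
      (Pool.Agent.Lib.MP_f7db8a.IsStarBody.sb (by norm_num) hL) h)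
    n k hk (by omega) K L hK hL h

end Pool.Agent.S14259
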