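import Pool.Statements.S14496
import Pool.Agent.Lib.MP_2602dd_lc.Tor
import Pool.Agent.Lib.MP_2602dd_lc.Mfd

set_option autoImplicit false
open MeasureTheory
open scoped Manifold ContDiff
open Pool Pool.MP_2602dd_lc

namespace Pool.Agent.S14496

/-- The negation of the preceding statement: For every compact connected boundaryless smooth manifold of dimension at least 2 with a smooth volume, measure isomorphism of smooth ergodic volume-preserving diffeomorphisms is Borel bi-reducible with isomorphism of countable binary relations on ℕ. -/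
theorem result :
    ¬ (∀ (n : ℕ), 2 ≤ n →
  ∀ (M : Type) [TopologicalSpace M] [ChartedSpace (EuclideanSpace ℝ (Fin n)) M]
    [IsManifold (𝓡 n) ∞ M] [CompactSpace M] [ConnectedSpace M] [T2Space M]
    [MeasurableSpace M] [BorelSpace M] (ν : Measure M),
    (∀ e ∈ atlas (EuclideanSpace ℝ (Fin n)) M, ∃ ρ : EuclideanSpace ℝ (Fin n) → ℝ,
        ContDiffOn ℝ ∞ ρ e.target ∧ (∀ y ∈ e.target, 0 < ρ y) ∧
        Measure.map (⇑e) (ν.restrict e.source) =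
          (volume.withDensity (fun y => ENNReal.ofReal (ρ y))).restrict e.target) →
    (∃ f : {T : Diffeomorph (𝓡 n) (𝓡 n) M M ∞ //
              MeasurePreserving (⇑T) ν ν ∧ Ergodic (⇑T) ν} → (ℕ → ℕ → Bool),
       @Measurable {T : Diffeomorph (𝓡 n) (𝓡 n) M M ∞ //
              MeasurePreserving (⇑T) ν ν ∧ Ergodic (⇑T) ν} (ℕ → ℕ → Bool)
         (MeasurableSpace.comap
           (fun T : {T : Diffeomorph (𝓡 n) (𝓡 n) M M ∞ //
              MeasurePreserving (⇑T) ν ν ∧ Ergodic (⇑T) ν} => (⇑T.1 : M → M))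
           (inferInstance : MeasurableSpace (M → M)))
         (inferInstance : MeasurableSpace (ℕ → ℕ → Bool)) f ∧
       ∀ S T : {T : Diffeomorph (𝓡 n) (𝓡 n) M M ∞ //
              MeasurePreserving (⇑T) ν ν ∧ Ergodic (⇑T) ν},
         (∃ φ ψ : M → M, MeasurePreserving φ ν ν ∧ MeasurePreserving ψ ν ν ∧
            ψ ∘ φ =ᵐ[ν] id ∧ φ ∘ ψ =ᵐ[ν] id ∧ φ ∘ (⇑S.1) =ᵐ[ν] (⇑T.1) ∘ φ) ↔
         (∃ σ : Equiv.Perm ℕ, ∀ i j : ℕ, f S i j = f T (σ i) (σ j))) ∧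
    (∃ g : (ℕ → ℕ → Bool) → {T : Diffeomorph (𝓡 n) (𝓡 n) M M ∞ //
              MeasurePreserving (⇑T) ν ν ∧ Ergodic (⇑T) ν},
       @Measurable (ℕ → ℕ → Bool) {T : Diffeomorph (𝓡 n) (𝓡 n) M M ∞ //
              MeasurePreserving (⇑T) ν ν ∧ Ergodic (⇑T) ν}
         (inferInstance : MeasurableSpace (ℕ → ℕ → Bool))
         (MeasurableSpace.comap
           (fun T : {T : Diffeomorph (𝓡 n) (𝓡 n) M M ∞ //
              MeasurePreserving (⇑T) ν ν ∧ Ergodic (⇑T) ν} => (⇑T.1 : M → M))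
           (inferInstance : MeasurableSpace (M → M))) g ∧
       ∀ G H : ℕ → ℕ → Bool,
         (∃ σ : Equiv.Perm ℕ, ∀ i j : ℕ, G i j = H (σ i) (σ j)) ↔
         (∃ φ ψ : M → M, MeasurePreserving φ ν ν ∧ MeasurePreserving ψ ν ν ∧
            ψ ∘ φ =ᵐ[ν] id ∧ φ ∘ ψ =ᵐ[ν] id ∧
            φ ∘ (⇑(g G).1) =ᵐ[ν] (⇑(g H).1) ∘ φ))) := by
  intro h
  let _ := Pool.Agent.Lib.MP_2602dd_lc.csTT
  have hmf := Pool.Agent.Lib.MP_2602dd_lc.isManifoldTT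
  obtain ⟨⟨f, hf, hfiso⟩, _⟩ := h 2 le_rfl Pool.Agent.Lib.MP_2602dd_lc.TT
    Pool.Agent.Lib.MP_2602dd_lc.nu Pool.Agent.Lib.MP_2602dd_lc.density_TT
  have hd := Pool.Agent.Lib.MP_2602dd_lc.exists_ldata
  let Φ : (ℕ → ℝ) → {T : Diffeomorph (𝓡 2) (𝓡 2) Pool.Agent.Lib.MP_2602dd_lc.TT
      Pool.Agent.Lib.MP_2602dd_lc.TT ∞ //
      MeasurePreserving (⇑T) Pool.Agent.Lib.MP_2602dd_lc.nu Pool.Agent.Lib.MP_2602dd_lc.nu ∧
        Ergodic (⇑T) Pool.Agent.Lib.MP_2602dd_lc.nu} := fun x =>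
    ⟨Pool.Agent.Lib.MP_2602dd_lc.TAdiffeo hd (Pool.Agent.Lib.MP_2602dd_lc.abs_amp_le x),
      Pool.Agent.Lib.MP_2602dd_lc.measurePreserving_TA hd
        (Pool.Agent.Lib.MP_2602dd_lc.abs_amp_le x),
      Pool.Agent.Lib.MP_2602dd_lc.ergodic_TA hd
        (Pool.Agent.Lib.MP_2602dd_lc.abs_amp_le x) (Pool.Agent.Lib.MP_2602dd_lc.amp_odd x)⟩
  have hΦ : @Measurable (ℕ → ℝ) {T : Diffeomorph (𝓡 2) (𝓡 2) Pool.Agent.Lib.MP_2602dd_lc.TT
      Pool.Agent.Lib.MP_2602dd_lc.TT ∞ //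
      MeasurePreserving (⇑T) Pool.Agent.Lib.MP_2602dd_lc.nu Pool.Agent.Lib.MP_2602dd_lc.nu ∧
        Ergodic (⇑T) Pool.Agent.Lib.MP_2602dd_lc.nu} inferInstance
      (MeasurableSpace.comap
        (fun T : {T : Diffeomorph (𝓡 2) (𝓡 2) Pool.Agent.Lib.MP_2602dd_lc.TT
          Pool.Agent.Lib.MP_2602dd_lc.TT ∞ //
          MeasurePreserving (⇑T) Pool.Agent.Lib.MP_2602dd_lc.nu Pool.Agent.Lib.MP_2602dd_lc.nu ∧
            Ergodic (⇑T) Pool.Agent.Lib.MP_2602dd_lc.nu} =>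
          (⇑T.1 : Pool.Agent.Lib.MP_2602dd_lc.TT → Pool.Agent.Lib.MP_2602dd_lc.TT))
        (inferInstance : MeasurableSpace
          (Pool.Agent.Lib.MP_2602dd_lc.TT → Pool.Agent.Lib.MP_2602dd_lc.TT))) Φ := by
    rw [measurable_comap_iff]
    exact Pool.Agent.Lib.MP_2602dd_lc.measurable_TA_amp hd
  refine Pool.Agent.Lib.MP_2602dd_lc.no_reduction hd (f ∘ Φ) (hf.comp hΦ) (fun x y => ?_)
  refine Iff.trans (hfiso (Φ x) (Φ y)) ⟨?_, ?_⟩
  · rintro ⟨σ, hσ⟩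
    exact ⟨σ, fun i hi => absurd hi (Nat.not_lt_zero i), hσ⟩
  · rintro ⟨σ, _, hσ⟩
    exact ⟨σ, hσ⟩

end Pool.Agent.S14496
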