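import Pool.Statements.S14685
import Pool.Agent.Lib.MP_4fb322_lc_q.Almost
import Pool.Agent.Lib.MP_4fb322_lc_h71.C4
import Pool.Agent.Lib.MP_4fb322_lc_e.E6

set_option autoImplicit false
open Pool Pool.MP_4fb322_lc

namespace Pool.Agent.S14685

/-- For every relational signature and every age of finite structures, three conditions are equivalent: no infinite antichain under embeddability; no strictly decreasing sequence of sub-ages; countably many sub-ages. -/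
theorem result :
  ∀ (I : Type) (ar : I → ℕ) (𝒜 : Set (Σ n : ℕ, (i : I) → Set (Fin (ar i) → Fin n))),
    (𝒜.Nonempty ∧
      (∀ A B : (Σ n : ℕ, (i : I) → Set (Fin (ar i) → Fin n)), B ∈ 𝒜 →
        (∃ f : Fin A.1 → Fin B.1, Function.Injective f ∧
          ∀ (i : I) (t : Fin (ar i) → Fin A.1), t ∈ A.2 i ↔ f ∘ t ∈ B.2 i) → A ∈ 𝒜) ∧
      (∀ A ∈ 𝒜, ∀ B ∈ 𝒜, ∃ C ∈ 𝒜,
        (∃ f : Fin A.1 → Fin C.1, Function.Injective f ∧
          ∀ (i : I) (t : Fin (ar i) → Fin A.1), t ∈ A.2 i ↔ f ∘ t ∈ C.2 i) ∧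
        (∃ g : Fin B.1 → Fin C.1, Function.Injective g ∧
          ∀ (i : I) (t : Fin (ar i) → Fin B.1), t ∈ B.2 i ↔ g ∘ t ∈ C.2 i))) →
    ((¬ ∃ s : ℕ → (Σ n : ℕ, (i : I) → Set (Fin (ar i) → Fin n)),
        (∀ k, s k ∈ 𝒜) ∧
        ∀ m k, m ≠ k → ¬ ∃ f : Fin (s m).1 → Fin (s k).1, Function.Injective f ∧
          ∀ (i : I) (t : Fin (ar i) → Fin (s m).1), t ∈ (s m).2 i ↔ f ∘ t ∈ (s k).2 i)
      ↔
      (¬ ∃ D : ℕ → Set (Σ n : ℕ, (i : I) → Set (Fin (ar i) → Fin n)),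
        (∀ k, D k ⊆ 𝒜 ∧ (D k).Nonempty ∧
          (∀ A B : (Σ n : ℕ, (i : I) → Set (Fin (ar i) → Fin n)), B ∈ D k →
            (∃ f : Fin A.1 → Fin B.1, Function.Injective f ∧
              ∀ (i : I) (t : Fin (ar i) → Fin A.1), t ∈ A.2 i ↔ f ∘ t ∈ B.2 i) → A ∈ D k) ∧
          (∀ A ∈ D k, ∀ B ∈ D k, ∃ C ∈ D k,
            (∃ f : Fin A.1 → Fin C.1, Function.Injective f ∧
              ∀ (i : I) (t : Fin (ar i) → Fin A.1), t ∈ A.2 i ↔ f ∘ t ∈ C.2 i) ∧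
            (∃ g : Fin B.1 → Fin C.1, Function.Injective g ∧
              ∀ (i : I) (t : Fin (ar i) → Fin B.1), t ∈ B.2 i ↔ g ∘ t ∈ C.2 i))) ∧
        ∀ k, D (k + 1) ⊂ D k)) ∧
    ((¬ ∃ D : ℕ → Set (Σ n : ℕ, (i : I) → Set (Fin (ar i) → Fin n)),
        (∀ k, D k ⊆ 𝒜 ∧ (D k).Nonempty ∧
          (∀ A B : (Σ n : ℕ, (i : I) → Set (Fin (ar i) → Fin n)), B ∈ D k →
            (∃ f : Fin A.1 → Fin B.1, Function.Injective f ∧
              ∀ (i : I) (t : Fin (ar i) → Fin A.1), t ∈ A.2 i ↔ f ∘ t ∈ B.2 i) → A ∈ D k) ∧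
          (∀ A ∈ D k, ∀ B ∈ D k, ∃ C ∈ D k,
            (∃ f : Fin A.1 → Fin C.1, Function.Injective f ∧
              ∀ (i : I) (t : Fin (ar i) → Fin A.1), t ∈ A.2 i ↔ f ∘ t ∈ C.2 i) ∧
            (∃ g : Fin B.1 → Fin C.1, Function.Injective g ∧
              ∀ (i : I) (t : Fin (ar i) → Fin B.1), t ∈ B.2 i ↔ g ∘ t ∈ C.2 i))) ∧
        ∀ k, D (k + 1) ⊂ D k)
      ↔
      {ℬ : Set (Σ n : ℕ, (i : I) → Set (Fin (ar i) → Fin n)) |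
        ℬ ⊆ 𝒜 ∧ ℬ.Nonempty ∧
          (∀ A B : (Σ n : ℕ, (i : I) → Set (Fin (ar i) → Fin n)), B ∈ ℬ →
            (∃ f : Fin A.1 → Fin B.1, Function.Injective f ∧
              ∀ (i : I) (t : Fin (ar i) → Fin A.1), t ∈ A.2 i ↔ f ∘ t ∈ B.2 i) → A ∈ ℬ) ∧
          (∀ A ∈ ℬ, ∀ B ∈ ℬ, ∃ C ∈ ℬ,
            (∃ f : Fin A.1 → Fin C.1, Function.Injective f ∧
              ∀ (i : I) (t : Fin (ar i) → Fin A.1), t ∈ A.2 i ↔ f ∘ t ∈ C.2 i) ∧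
            (∃ g : Fin B.1 → Fin C.1, Function.Injective g ∧
              ∀ (i : I) (t : Fin (ar i) → Fin B.1), t ∈ B.2 i ↔ g ∘ t ∈ C.2 i))}.Countable) := by
  intro I ar 𝒜 hA
  exact Pool.Agent.Lib.MP_4fb322_lc_q.final_of_AB Pool.Agent.Lib.MP_4fb322_lc_e.thmA
    Pool.MP4fb322AA.thmB I ar 𝒜 hA

end Pool.Agent.S14685
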