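import Pool.Statements.S14837
import Pool.Agent.Lib.MP_67db36_lc.Final

set_option autoImplicit false
open Pool Pool.MP_67db36_lc

namespace Pool.Agent.S14837

/-- Call a rational fusible if it is in the least set containing 0 and closed under (a+b+1)/2 when ∣a−b∣<1. If x<y are consecutive fusibles and m=y−x, then for all n≥0 every fusible q in [y+1−m/2^n, y+1−m/2^(n+1)) has 2q−1−x−(2−1/2^n)m fusible. -/
theorem result :
    ∀ F : ℚ → Prop,
      (∀ q : ℚ, F q ↔ ∀ S : Set ℚ, (0 : ℚ) ∈ S →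
          (∀ a ∈ S, ∀ b ∈ S, |a - b| < 1 → (a + b + 1) / 2 ∈ S) → q ∈ S) →
      ∀ x y : ℚ, F x → F y → x < y → (∀ z : ℚ, F z → ¬ (x < z ∧ z < y)) →
        ∀ n : ℕ, ∀ q : ℚ, F q →
          y + 1 - (y - x) / 2 ^ n ≤ q → q < y + 1 - (y - x) / 2 ^ (n + 1) →
          F (2 * q - 1 - x - (2 - 1 / 2 ^ n) * (y - x)) := by
  intro F hF x y hx hy hxy hgap n q hq h1 h2
  have hiff := Lib.MP_67db36_lc.fus_iff hF
  rw [hiff]
  refine Lib.MP_67db36_lc.Fus.main (n := n) ⟨(hiff x).mp hx, (hiff y).mp hy, hxy, ?_⟩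
    ((hiff q).mp hq) h1 h2
  intro z hz
  exact hgap z ((hiff z).mpr hz)

end Pool.Agent.S14837
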