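import Pool.Statements.S15662
import Pool.Agent.Lib.MP_ff62c8_lc.Main

set_option autoImplicit false
open Pool Pool.MP_ff62c8_lc

namespace Pool.Agent.S15662

/-- The negation of the preceding statement: Every nonsmooth aperiodic countable Borel equivalence relation on an uncountable standard Borel space is Borel isomorphic to the orbit relation of a continuous action of a countable group on a compact Polish space. -/
theorem result :
    ¬ (∀ (X : Type) [MeasurableSpace X] [StandardBorelSpace X], Uncountable X →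
    ∀ (E : X → X → Prop), Equivalence E →
      MeasurableSet {p : X × X | E p.1 p.2} →
      (∀ x : X, {y : X | E x y}.Countable) →
      (∀ x : X, {y : X | E x y}.Infinite) →
      (¬ ∃ f : X → ℝ, Measurable f ∧ ∀ x y : X, E x y ↔ f x = f y) →
      ∃ (Γ : Type) (_ : Group Γ) (_ : Countable Γ)
        (K : Type) (_ : TopologicalSpace K) (_ : CompactSpace K) (_ : PolishSpace K)
        (_ : MulAction Γ K) (_ : ContinuousConstSMul Γ K)
        (_ : MeasurableSpace K) (_ : BorelSpace K) (f : X ≃ᵐ K),
        ∀ x y : X, E x y ↔ ∃ g : Γ, g • f x = f y) := by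
  intro hall
  obtain ⟨A, D, C, h1, h2, h3, h4, h5, h6⟩ :=
    Pool.Agent.CBER.choice (172 * (1 / 1000000)) (by norm_num)
  have hA : MeasurableSet A := by
    rw [← compl_compl A, h3]
    exact (MeasurableSet.sUnion h1 fun c hc => (h2 c hc).1.measurableSet).compl
  have hne : A.Nonempty := by
    by_contra hemp
    rw [Set.not_nonempty_iff_eq_empty] at hemp
    rw [hemp, Set.compl_empty] at h3
    have hcount : Countable C := h1.to_subtype
    have hU : (⋃ c : C, (c : Set Pool.Agent.CBER.T1)) = Set.univ := by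
      rw [← Set.sUnion_eq_iUnion]; exact h3.symm
    obtain ⟨c, hc⟩ := nonempty_interior_of_iUnion_of_closed
      (fun c : C => (h2 c c.2).1) hU
    rw [(h2 c c.2).2] at hc
    exact Set.not_nonempty_empty hc
  have hsb : StandardBorelSpace (Pool.Agent.CBER.XA A) :=
    (measurable_fst hA : MeasurableSet {p : Pool.Agent.CBER.V | p.1 ∈ A}).standardBorel
  obtain ⟨Γ, hG, hGc, K, hT, hcomp, hpol, hact, hcont, hmeas, hborel, f, hf⟩ :=
    hall (Pool.Agent.CBER.XA A) (Pool.Agent.CBER.XA_uncountable A hne)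
      (Pool.Agent.CBER.RA A) (Pool.Agent.CBER.RA_equiv A) (Pool.Agent.CBER.RA_meas A)
      (Pool.Agent.CBER.RA_countable A) (Pool.Agent.CBER.RA_infinite A h4)
      (Pool.Agent.CBER.RA_nonsmooth A h4 hne)
  obtain ⟨e, he⟩ := exists_surjective_nat Γ
  refine Pool.Agent.CBER.no_real (K := K) h1 h2 h3 h4 h5
    (δ := 1 / 1000000) (by norm_num) h6
    { g := fun n => Homeomorph.smul (e n)
      f := f
      fwd := fun n y => ?_
      bwd := fun w y => ?_ }
  · have h : Pool.Agent.CBER.RA A (f.symm y) (f.symm (Homeomorph.smul (e n) y)) := by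
      refine (hf _ _).2 ⟨e n, ?_⟩
      rw [f.apply_symm_apply, f.apply_symm_apply]; rfl
    obtain ⟨w, hw⟩ := h
    exact ⟨w, Subtype.ext hw.symm⟩
  · have h : Pool.Agent.CBER.RA A (f.symm y) (Pool.Agent.CBER.actX A w (f.symm y)) := ⟨w, rfl⟩
    obtain ⟨γ, hγ⟩ := (hf _ _).1 h
    obtain ⟨n, rfl⟩ := he γ
    refine ⟨n, ?_⟩
    rw [← hγ, f.apply_symm_apply]; rfl

end Pool.Agent.S15662
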