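import Pool.Statements.S15680
import Pool.Agent.Lib.MP_1526eb_mp.Final

set_option autoImplicit false
open Pool Pool.MP_1526eb_mp

namespace Pool.Agent.S15680

/-- The negation of the preceding statement: For any positive TFW constants and distinct nuclear positions, if positive nuclear charges increase componentwise, then the critical electron number minus total nuclear charge does not decrease. -/
theorem result :
    ¬ (∀ (K : ℕ) (R : Fin K → EuclideanSpace ℝ (Fin 3)), Function.Injective R →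
  ∀ (cW cTF : ℝ), 0 < cW → 0 < cTF →
  ∀ (E : (Fin K → ℝ) → (EuclideanSpace ℝ (Fin 3) → ℝ) → ℝ),
    (∀ (z : Fin K → ℝ) (ψ : EuclideanSpace ℝ (Fin 3) → ℝ),
      E z ψ = cW * (∫ x, ‖fderiv ℝ ψ x‖ ^ 2)
        + cTF * (∫ x, |ψ x| ^ ((10 : ℝ) / 3))
        - (∫ x, (∑ j, z j / ‖x - R j‖) * ψ x ^ 2)
        + (1 / 2) * ∫ x, ∫ y, ψ x ^ 2 * ψ y ^ 2 / ‖x - y‖) →
  ∀ (Nc : (Fin K → ℝ) → ℝ),
    (∀ z : Fin K → ℝ, Nc z = sInf {N : ℝ | 0 ≤ N ∧
      sInf (E z '' {ψ : EuclideanSpace ℝ (Fin 3) → ℝ |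
          ContDiff ℝ 1 ψ ∧ HasCompactSupport ψ ∧ ∫ x, ψ x ^ 2 ≤ N})
        = sInf (E z '' {ψ : EuclideanSpace ℝ (Fin 3) → ℝ |
          ContDiff ℝ 1 ψ ∧ HasCompactSupport ψ})}) →
  ∀ z z' : Fin K → ℝ, (∀ j, 0 < z j) → z ≤ z' →
    Nc z - ∑ j, z j ≤ Nc z' - ∑ j, z' j) := by
  intro H
  obtain ⟨δ', hδ', htr⟩ := Pool.Agent.Lib.TFW.truncation
  obtain ⟨m, hm, cTF, hcTF, δ1, hδ1, Λ, h, hh, hhZ, hgg, hnear⟩ :=
    Pool.Agent.Lib.TFW.near_min_close hδ'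
  obtain ⟨K, R, C, P⟩ := Pool.Agent.Lib.TFW.exists_part Λ hh
  have hm0 : 0 < m := by linarith
  have hN0 : 0 ≤ ∫ x, Pool.Agent.Lib.TFW.rho0 x :=
    MeasureTheory.integral_nonneg fun x => (Pool.Agent.Lib.TFW.rho0_pos x).le
  have hH := H K R P.inj 1 cTF one_pos hcTF _ (fun z ψ => rfl) _ (fun z => rfl)
    (Pool.Agent.Lib.TFW.chg C (Pool.Agent.Lib.TFW.mus 0 m))
    (Pool.Agent.Lib.TFW.chg C (Pool.Agent.Lib.TFW.mus (1/2) m))
    (P.chg_pos (Pool.Agent.Lib.TFW.BI_mus 0 hm0) (Pool.Agent.Lib.TFW.mus_pos le_rfl hm0))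
    (Pool.Agent.Lib.TFW.chg_mono hm0)
  have key : ∀ s : ℝ, 0 ≤ s → s ≤ 1/2 → _ := fun s hs hs1 =>
    Pool.Agent.Lib.TFW.Nc_bounds
      (E := fun ψ => 1 * (∫ x, ‖fderiv ℝ ψ x‖ ^ 2)
        + cTF * (∫ x, |ψ x| ^ ((10 : ℝ) / 3))
        - (∫ x, (∑ j, Pool.Agent.Lib.TFW.chg C (Pool.Agent.Lib.TFW.mus s m) j / ‖x - R j‖)
            * ψ x ^ 2)
        + (1 / 2) * ∫ x, ∫ y, ψ x ^ 2 * ψ y ^ 2 / ‖x - y‖) hN0 hδ1
      (by
        refine ⟨-(2 * Pool.Agent.Lib.TFW.D Pool.Agent.Lib.TFW.mu0 Pool.Agent.Lib.TFW.mu0 + 1),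
          fun ψ hψ => ?_⟩
        rw [Pool.Agent.Lib.TFW.energy_eq cTF R _ hψ]
        have h1 := Pool.Agent.Lib.TFW.apriori P hh hhZ hs hs1 hm hcTF.le hψ
        have h2 := Pool.Agent.Lib.TFW.Kin_nonneg ψ
        have h3 := Pool.Agent.Lib.TFW.D_self_nonneg hψ.BI
        linarith)
      (by
        intro ψ hψ hmin
        have hmin' : ∀ φ, Pool.Agent.Lib.TFW.Adm φ →
            Pool.Agent.Lib.TFW.En cTF R (Pool.Agent.Lib.TFW.chg C (Pool.Agent.Lib.TFW.mus s m)) ψ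
            ≤ Pool.Agent.Lib.TFW.En cTF R
              (Pool.Agent.Lib.TFW.chg C (Pool.Agent.Lib.TFW.mus s m)) φ + δ1 := by
          intro φ hφ
          rw [← Pool.Agent.Lib.TFW.energy_eq cTF R _ hψ, ← Pool.Agent.Lib.TFW.energy_eq cTF R _ hφ]
          exact hmin φ hφ
        exact (htr Λ h K R C P hh hhZ s m hs hs1 hm0 cTF hcTF.le ψ hψ
          (hnear K R C P s hs hs1 ψ hψ hmin')).1)
      (by
        intro ψ hψ hmin
        have hmin' : ∀ φ, Pool.Agent.Lib.TFW.Adm φ →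
            Pool.Agent.Lib.TFW.En cTF R (Pool.Agent.Lib.TFW.chg C (Pool.Agent.Lib.TFW.mus s m)) ψ
            ≤ Pool.Agent.Lib.TFW.En cTF R
              (Pool.Agent.Lib.TFW.chg C (Pool.Agent.Lib.TFW.mus s m)) φ + δ1 := by
          intro φ hφ
          rw [← Pool.Agent.Lib.TFW.energy_eq cTF R _ hψ, ← Pool.Agent.Lib.TFW.energy_eq cTF R _ hφ]
          exact hmin φ hφ
        obtain ⟨φ, hφ, h1, h2⟩ := (htr Λ h K R C P hh hhZ s m hs hs1 hm0 cTF hcTF.le ψ hψ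
          (hnear K R C P s hs hs1 ψ hψ hmin')).2
        refine ⟨φ, hφ, h1, ?_⟩
        rw [Pool.Agent.Lib.TFW.energy_eq cTF R _ hφ, Pool.Agent.Lib.TFW.energy_eq cTF R _ hψ]
        exact h2)
  have k0 := (key 0 le_rfl (by norm_num)).1
  have k1 := (key (1/2) (by norm_num) le_rfl).2
  have hs := Pool.Agent.Lib.TFW.chg_sum hm0 P
  linarith

end Pool.Agent.S15680
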