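import Pool.Statements.S19391
import Pool.Agent.Lib.MP_6b8a80_h32.T9c_Final

set_option autoImplicit false
open MeasureTheory ProbabilityTheory
open Pool Pool.MP_6b8a80_pr

namespace Pool.Agent.S19391

/-- For 0<t≤1, the correlation between the Poisson last-passage value to (n,n) and its value after resampling a t-fraction of the Poisson points tends to 0 as n grows (1-t thinning plus independent rate-t points). -/
theorem result :
    ∀ t : NNReal, 0 < t → t ≤ 1 → ∀ ε : ℝ, 0 < ε → ∃ n₀ : ℕ, ∀ n : ℕ, n₀ ≤ n → 1 ≤ n →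
      ∀ (Ω : Type) [MeasurableSpace Ω] (P : Measure Ω) [IsProbabilityMeasure P]
        (C : Ω → ℕ × ℕ) (Z : ℕ → Ω → ((ℝ × ℝ) × ℝ) × (ℝ × ℝ)),
        Measure.map C P =
          ((poissonPMF ((n : NNReal) ^ 2)).toMeasure).prod
            ((poissonPMF (t * (n : NNReal) ^ 2)).toMeasure) →
        (∀ i, Measure.map (Z i) P =
          ((((ENNReal.ofReal ((n : ℝ) ^ 2))⁻¹ •
              volume.restrict (Set.Icc (0 : ℝ × ℝ) ((n : ℝ), (n : ℝ)))).prod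
            (volume.restrict (Set.Icc (0 : ℝ) 1))).prod
            ((ENNReal.ofReal ((n : ℝ) ^ 2))⁻¹ •
              volume.restrict (Set.Icc (0 : ℝ × ℝ) ((n : ℝ), (n : ℝ)))))) →
        iIndepFun Z P →
        IndepFun C (fun ω i => Z i ω) P →
        |covariance
            (fun ω => ((sSup {k : ℕ | ∃ S : Finset (ℝ × ℝ),
                (↑S : Set (ℝ × ℝ)) ⊆ {p | ∃ i < (C ω).1, (Z i ω).1.1 = p} ∧
                IsChain (· ≤ ·) (↑S : Set (ℝ × ℝ)) ∧ S.card = k} : ℕ) : ℝ))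
            (fun ω => ((sSup {k : ℕ | ∃ S : Finset (ℝ × ℝ),
                (↑S : Set (ℝ × ℝ)) ⊆ {p | (∃ i < (C ω).1, (t : ℝ) ≤ (Z i ω).1.2 ∧ (Z i ω).1.1 = p) ∨
                  (∃ j < (C ω).2, (Z j ω).2 = p)} ∧
                IsChain (· ≤ ·) (↑S : Set (ℝ × ℝ)) ∧ S.card = k} : ℕ) : ℝ)) P
          / Real.sqrt
            (variance (fun ω => ((sSup {k : ℕ | ∃ S : Finset (ℝ × ℝ),
                (↑S : Set (ℝ × ℝ)) ⊆ {p | ∃ i < (C ω).1, (Z i ω).1.1 = p} ∧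
                IsChain (· ≤ ·) (↑S : Set (ℝ × ℝ)) ∧ S.card = k} : ℕ) : ℝ)) P *
             variance (fun ω => ((sSup {k : ℕ | ∃ S : Finset (ℝ × ℝ),
                (↑S : Set (ℝ × ℝ)) ⊆ {p | (∃ i < (C ω).1, (t : ℝ) ≤ (Z i ω).1.2 ∧ (Z i ω).1.1 = p) ∨
                  (∃ j < (C ω).2, (Z j ω).2 = p)} ∧
                IsChain (· ≤ ·) (↑S : Set (ℝ × ℝ)) ∧ S.card = k} : ℕ) : ℝ)) P)| < ε := by
  intro t ht0 ht1 ε hε
  obtain ⟨n₀, h⟩ := Pool.Agent.LPP.noise_sensitivity t ht0 ht1 ε hε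
  exact ⟨n₀, fun n hn hn1 Ω _ P _ C Z h1 h2 h3 h4 => h n hn hn1 Ω P C Z ⟨h1, h2, h3, h4⟩⟩

end Pool.Agent.S19391
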