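import Pool.Statements.S19753
import Pool.Agent.Lib.MP_f76209_pr.PartA
import Pool.Agent.Lib.MP_f76209_pr_helper85.Path

set_option autoImplicit false
open MeasureTheory ProbabilityTheory
open Pool Pool.MP_f76209_pr

namespace Pool.Agent.S19753

/-- For any standard Brownian motion B, almost surely some homeomorphism of ℂ is holomorphic off the graph {t + iB(t) : 0 ≤ t ≤ 1} but not holomorphic on all of ℂ, i.e. the graph is not conformally removable. -/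
theorem result :
    ∀ (Ω : Type) [MeasurableSpace Ω] (P : Measure Ω) [IsProbabilityMeasure P]
      (B : ℝ → Ω → ℝ),
      (∀ ω, B 0 ω = 0) →
      (∀ ω, Continuous (fun t => B t ω)) →
      (∀ s t : ℝ, 0 ≤ s → s ≤ t →
        P.map (fun ω => B t ω - B s ω) = gaussianReal 0 (Real.toNNReal (t - s))) →
      (∀ (n : ℕ) (τ : ℕ → ℝ), Monotone τ → 0 ≤ τ 0 →
        iIndepFun (fun (i : Fin n) (ω : Ω) => B (τ (i.val + 1)) ω - B (τ i.val) ω) P) →
      ∀ᵐ ω ∂P, ∃ f : ℂ ≃ₜ ℂ,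
        DifferentiableOn ℂ (f : ℂ → ℂ)
          ({z : ℂ | ∃ t ∈ Set.Icc (0 : ℝ) 1, z = Complex.mk t (B t ω)}ᶜ) ∧
        ¬ Differentiable ℂ (f : ℂ → ℂ) := by
  obtain ⟨M, lam, hM, hlam, hmain⟩ := Pool.Agent.BG.H85.exists_goodTree
  intro Ω _ P _ B h0 hcont hlaw hind
  filter_upwards [hmain Ω P B h0 hcont hlaw hind] with ω hω
  obtain ⟨q, Q, hqQ, htree⟩ := hω
  have hQ : (0 : ℝ) < Q := by exact_mod_cast (by omega : 0 < Q)
  have hτ : (0 : ℝ) < 1 / (Q : ℝ) := by positivity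
  obtain ⟨f, hf1, hf2⟩ := Pool.Agent.BG.homeo_of_goodTree (fun t => B t ω) (hcont ω)
    ((q : ℝ) / Q) (1 / (Q : ℝ)) (lam * Real.sqrt (1 / (Q : ℝ))) hτ
    (mul_pos hlam (Real.sqrt_pos.2 hτ)) M hM htree
  refine ⟨f, hf1.mono ?_, hf2⟩
  apply Set.compl_subset_compl.2
  rintro z ⟨t, ht, rfl⟩
  refine ⟨t, ⟨?_, ?_⟩, rfl⟩
  · exact le_trans (by positivity) ht.1
  · refine ht.2.trans ?_
    rw [← add_div, div_le_one hQ]
    exact_mod_cast hqQ

end Pool.Agent.S19753
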